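import Mathlib

set_option autoImplicit false

/-!
# The exterior algebra in the variables `e 0, e 1, …` over `ZMod 3` with the derivation
`e i ↦ e (i + 1)`

`sg` is the grading automorphism, `DD s` the derivation which extends the linear map `s`,
`CL d` the contraction (an odd derivation) given by the linear form `d`.
-/

namespace Q16.Alt3

noncomputable section

abbrev V := ℕ →₀ ZMod 3
abbrev L := ExteriorAlgebra (ZMod 3) V

abbrev io : V →ₗ[ZMod 3] L := ExteriorAlgebra.ι (ZMod 3)

/-- the grading automorphism -/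
def sg : L →ₐ[ZMod 3] L := CliffordAlgebra.involute

@[simp] theorem sg_io (v : V) : sg (io v) = - io v := CliffordAlgebra.involute_ι v

theorem indL {P : L → Prop} (h1 : ∀ r : ZMod 3, P (algebraMap _ _ r))
    (h2 : ∀ x y, P x → P y → P (x + y)) (h3 : ∀ (x : L) (m : V), P x → P (io m * x)) :
    ∀ x, P x := by
  intro x
  induction x using CliffordAlgebra.left_induction with
  | algebraMap r => exact h1 r
  | add x y hx hy => exact h2 x y hx hy
  | ι_mul x m hx => exact h3 x m hx

theorem io_sq (v : V) : io v * io v = 0 := ExteriorAlgebra.ι_sq_zero v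

theorem io_swap (v w : V) : io v * io w = - (io w * io v) := by
  have := ExteriorAlgebra.ι_add_mul_swap (R := ZMod 3) v w
  exact eq_neg_of_add_eq_zero_left this

theorem sg_sg (x : L) : sg (sg x) = x := CliffordAlgebra.involute_involute x

theorem io_mul (v : V) (x : L) : io v * x = sg x * io v := by
  induction x using indL with
  | h1 r => rw [AlgHom.commutes]; exact (Algebra.commutes r _).symm
  | h2 x y hx hy => rw [mul_add, hx, hy, map_add, add_mul]
  | h3 x m hx =>
    rw [map_mul, sg_io, ← mul_assoc, io_swap v m, neg_mul, mul_assoc, hx]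
    noncomm_ring

/-- even elements are central -/
theorem even_comm {x : L} (hx : sg x = x) (y : L) : y * x = x * y := by
  induction y using indL with
  | h1 r => exact Algebra.commutes r _
  | h2 y z hy hz => rw [add_mul, hy, hz, mul_add]
  | h3 y m hy =>
    rw [mul_assoc, hy, ← mul_assoc, io_mul m x, hx, mul_assoc]

theorem odd_comm {x : L} (hx : sg x = -x) (y : L) : x * y = sg y * x := by
  induction y using indL with
  | h1 r => rw [AlgHom.commutes]; exact (Algebra.commutes r _).symm
  | h2 y z hy hz => rw [mul_add, hy, hz, map_add, add_mul]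
  | h3 y m hy =>
    have h1 : x * io m = - (io m * x) := by
      rw [io_mul m x, hx]; noncomm_ring
    rw [map_mul, sg_io, ← mul_assoc, h1, neg_mul, mul_assoc, hy]
    noncomm_ring

/-- odd elements anticommute -/
theorem odd_odd {x y : L} (hx : sg x = -x) (hy : sg y = -y) : x * y = - (y * x) := by
  rw [odd_comm hx y, hy, neg_mul]

theorem three_smul_L (x : L) : (3 : L) * x = 0 := by
  have h : ((3 : ℕ) : ZMod 3) = 0 := by decide
  have h2 : (3 : L) = algebraMap (ZMod 3) L ((3 : ℕ) : ZMod 3) := by
    rw [map_natCast]; norm_cast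
  rw [h2, h, map_zero, zero_mul]

theorem three_L : (3 : L) = 0 := by
  have := three_smul_L 1
  rwa [mul_one] at this

/-- `x + x = - x` -/
theorem add_self_L (x : L) : x + x = -x := by
  have h := three_smul_L x
  have h3 : (3 : L) * x = x + x + x := by
    have : (3 : L) = 1 + 1 + 1 := by norm_num
    rw [this]; noncomm_ring
  rw [h3] at h
  exact eq_neg_of_add_eq_zero_left h

theorem odd_sq {x : L} (hx : sg x = -x) : x * x = 0 := by
  have h := odd_odd hx hx
  have h2 : x * x + x * x = 0 := by nth_rewrite 1 [h]; simp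
  rw [add_self_L] at h2
  exact neg_eq_zero.mp h2

/-! ### derivations -/

/-- `x ↦ x + D x ε` on generators -/
def tsLin (s : V →ₗ[ZMod 3] V) : V →ₗ[ZMod 3] TrivSqZeroExt L L where
  toFun v := TrivSqZeroExt.inl (io v) + TrivSqZeroExt.inr (io (s v))
  map_add' v w := by
    ext <;> simp
  map_smul' c v := by
    ext <;> simp

theorem tsLin_sq (s : V →ₗ[ZMod 3] V) (v : V) : tsLin s v * tsLin s v = 0 := by
  ext
  · simp [tsLin]
  · simp only [tsLin, LinearMap.coe_mk, AddHom.coe_mk, TrivSqZeroExt.snd_mul, TrivSqZeroExt.fst_add,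
      TrivSqZeroExt.fst_inl, TrivSqZeroExt.fst_inr, add_zero, TrivSqZeroExt.snd_add,
      TrivSqZeroExt.snd_inl, TrivSqZeroExt.snd_inr, zero_add, smul_eq_mul, op_smul_eq_mul,
      TrivSqZeroExt.snd_zero]
    rw [io_swap (s v) v]
    simp

def ts (s : V →ₗ[ZMod 3] V) : L →ₐ[ZMod 3] TrivSqZeroExt L L :=
  ExteriorAlgebra.lift (ZMod 3) ⟨tsLin s, tsLin_sq s⟩

theorem ts_io (s : V →ₗ[ZMod 3] V) (v : V) :
    ts s (io v) = TrivSqZeroExt.inl (io v) + TrivSqZeroExt.inr (io (s v)) := by
  unfold ts
  rw [ExteriorAlgebra.lift_ι_apply]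
  rfl

theorem fst_ts (s : V →ₗ[ZMod 3] V) (x : L) : (ts s x).fst = x := by
  induction x using indL with
  | h1 r => rw [AlgHom.commutes]; rfl
  | h2 y z hy hz => rw [map_add, TrivSqZeroExt.fst_add, hy, hz]
  | h3 y m hy =>
    rw [map_mul, TrivSqZeroExt.fst_mul, hy, ts_io]
    simp

/-- the derivation which extends `s` -/
def DD (s : V →ₗ[ZMod 3] V) : L →ₗ[ZMod 3] L where
  toFun x := (ts s x).snd
  map_add' x y := by simp
  map_smul' c x := by simp

theorem DD_mul (s : V →ₗ[ZMod 3] V) (x y : L) : DD s (x * y) = x * DD s y + DD s x * y := by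
  show (ts s (x * y)).snd = x * (ts s y).snd + (ts s x).snd * y
  rw [map_mul, TrivSqZeroExt.snd_mul, fst_ts, fst_ts]
  simp

theorem DD_io (s : V →ₗ[ZMod 3] V) (v : V) : DD s (io v) = io (s v) := by
  show (ts s (io v)).snd = _
  rw [ts_io]; simp

theorem DD_algebraMap (s : V →ₗ[ZMod 3] V) (r : ZMod 3) : DD s (algebraMap _ _ r) = 0 := by
  show (ts s (algebraMap _ _ r)).snd = 0
  rw [AlgHom.commutes]; rfl

theorem DD_sg (s : V →ₗ[ZMod 3] V) (x : L) : DD s (sg x) = sg (DD s x) := by
  induction x using indL with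
  | h1 r => rw [AlgHom.commutes, DD_algebraMap, map_zero]
  | h2 y z hy hz => rw [map_add, map_add, hy, hz, map_add, map_add]
  | h3 y m hy =>
    rw [map_mul, sg_io, DD_mul, DD_mul, hy, map_add, map_mul, map_mul, map_neg, DD_io, sg_io, sg_io]

theorem DD_even (s : V →ₗ[ZMod 3] V) {x : L} (hx : sg x = x) : sg (DD s x) = DD s x := by
  rw [← DD_sg, hx]

theorem DD_odd (s : V →ₗ[ZMod 3] V) {x : L} (hx : sg x = -x) : sg (DD s x) = - DD s x := by
  rw [← DD_sg, hx, map_neg]

/-- in characteristic three the third power of a derivation is a derivation -/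
theorem DD_cube (s : V →ₗ[ZMod 3] V) (x : L) : DD s (DD s (DD s x)) = DD (s ∘ₗ s ∘ₗ s) x := by
  induction x using indL with
  | h1 r => simp only [DD_algebraMap, map_zero]
  | h2 y z hy hz => simp only [map_add, hy, hz]
  | h3 y m hy =>
    simp only [DD_mul, DD_io, map_add, hy]
    have h3 := three_L
    have e1 : io (s (s m)) * DD s y + io (s (s m)) * DD s y + io (s (s m)) * DD s y = 0 := by
      rw [add_self_L]; simp
    have e2 : io (s m) * DD s (DD s y) + io (s m) * DD s (DD s y) + io (s m) * DD s (DD s y) = 0 := by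
      rw [add_self_L]; simp
    have e3 : ((s ∘ₗ s ∘ₗ s) m) = s (s (s m)) := rfl
    rw [e3]
    have key : io m * DD (s ∘ₗ s ∘ₗ s) y + io (s m) * DD s (DD s y) +
        (io (s m) * DD s (DD s y) + io (s (s m)) * DD s y) +
        (io (s m) * DD s (DD s y) + io (s (s m)) * DD s y +
        (io (s (s m)) * DD s y + io (s (s (s m))) * y)) =
        (io m * DD (s ∘ₗ s ∘ₗ s) y + io (s (s (s m))) * y) +
        (io (s m) * DD s (DD s y) + io (s m) * DD s (DD s y) + io (s m) * DD s (DD s y)) +
        (io (s (s m)) * DD s y + io (s (s m)) * DD s y + io (s (s m)) * DD s y) := by abel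
    rw [key, e1, e2]
    simp

/-! ### contractions -/

abbrev Dl := Module.Dual (ZMod 3) V

def CL (d : Dl) : L →ₗ[ZMod 3] L := CliffordAlgebra.contractLeft d

theorem CL_io_mul (d : Dl) (v : V) (x : L) : CL d (io v * x) = d v • x - io v * CL d x :=
  CliffordAlgebra.contractLeft_ι_mul d v x

theorem CL_algebraMap (d : Dl) (r : ZMod 3) : CL d (algebraMap _ _ r) = 0 :=
  CliffordAlgebra.contractLeft_algebraMap (Q := (0 : QuadraticForm (ZMod 3) V)) d r

theorem CL_CL (d : Dl) (x : L) : CL d (CL d x) = 0 :=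
  CliffordAlgebra.contractLeft_contractLeft (Q := (0 : QuadraticForm (ZMod 3) V)) (d := d) x

theorem CL_comm (d d' : Dl) (x : L) : CL d (CL d' x) = - CL d' (CL d x) :=
  CliffordAlgebra.contractLeft_comm (Q := (0 : QuadraticForm (ZMod 3) V)) (d := d) (d' := d') x

theorem CL_mul (d : Dl) (x y : L) : CL d (x * y) = CL d x * y + sg x * CL d y := by
  induction x using indL with
  | h1 r =>
    rw [CL_algebraMap, zero_mul, zero_add, AlgHom.commutes, ← Algebra.smul_def, map_smul,
      Algebra.smul_def]
  | h2 x z hx hz => rw [add_mul, map_add, hx, hz, map_add, map_add]; noncomm_ring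
  | h3 x m hx =>
    rw [mul_assoc, CL_io_mul, hx, CL_io_mul, map_mul, sg_io]
    rw [sub_mul, smul_mul_assoc]
    noncomm_ring

theorem CL_DD (d : Dl) (s : V →ₗ[ZMod 3] V) (x : L) :
    CL d (DD s x) = DD s (CL d x) + CL (d ∘ₗ s) x := by
  induction x using indL with
  | h1 r => simp only [DD_algebraMap, CL_algebraMap, map_zero, add_zero]
  | h2 x z hx hz => simp only [map_add, hx, hz]; abel
  | h3 x m hx =>
    rw [DD_mul, map_add, CL_io_mul, DD_io, CL_io_mul, CL_io_mul, CL_io_mul, map_sub, DD_mul, DD_io, hx,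
      map_smul]
    have : (d ∘ₗ s) m = d (s m) := rfl
    rw [this]
    noncomm_ring

/-! ### the single variable case -/

abbrev e (i : ℕ) : L := io (Finsupp.single i 1)
def co (i : ℕ) : Dl := Finsupp.lapply i
def pa (i : ℕ) : L →ₗ[ZMod 3] L := CL (co i)

theorem sg_e (i : ℕ) : sg (e i) = - e i := sg_io _

theorem pa_e (i j : ℕ) (x : L) : pa i (e j * x) = (if i = j then x else 0) - e j * pa i x := by
  unfold pa e
  rw [CL_io_mul]
  congr 1
  unfold co
  rw [Finsupp.lapply_apply, Finsupp.single_apply]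
  by_cases h : j = i
  · subst h; simp
  · rw [if_neg h, if_neg (Ne.symm h)]; simp

theorem e_mul_eq_zero {i : ℕ} {x : L} (h : pa i x = 0) (h2 : e i * x = 0) : x = 0 := by
  have := pa_e i i x
  rw [h2, map_zero, if_pos rfl, h, mul_zero, sub_zero] at this
  exact this.symm

/-- every element involves only finitely many variables -/
theorem exists_bound (x : L) : ∃ N, ∀ M, N ≤ M → pa M x = 0 := by
  induction x using indL with
  | h1 r => exact ⟨0, fun M _ => CL_algebraMap _ _⟩
  | h2 x z hx hz =>
    obtain ⟨N, hN⟩ := hx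
    obtain ⟨N', hN'⟩ := hz
    refine ⟨max N N', fun M hM => ?_⟩
    rw [map_add, hN M (le_trans (le_max_left _ _) hM), hN' M (le_trans (le_max_right _ _) hM), add_zero]
  | h3 x m hx =>
    obtain ⟨N, hN⟩ := hx
    obtain ⟨N', hN'⟩ := m.support.exists_nat_subset_range
    refine ⟨max N N', fun M hM => ?_⟩
    unfold pa
    rw [CL_io_mul]
    have h1 : pa M x = 0 := hN M (le_trans (le_max_left _ _) hM)
    have h2 : co M m = 0 := by
      unfold co
      rw [Finsupp.lapply_apply]
      by_contra h
      have := hN' (Finsupp.mem_support_iff.mpr h)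
      rw [Finset.mem_range] at this
      have := le_trans (le_max_right N N') hM
      omega
    unfold pa at h1
    rw [h1, h2]
    simp

/-- the linear map that deletes the coordinate `i` -/
def kl (i : ℕ) : V →ₗ[ZMod 3] V := LinearMap.id - (Finsupp.lsingle i) ∘ₗ (Finsupp.lapply i)

theorem map_kl (i : ℕ) (x : L) : ExteriorAlgebra.map (kl i) x = x - e i * pa i x := by
  induction x using indL with
  | h1 r =>
    rw [AlgHom.commutes]
    unfold pa
    rw [CL_algebraMap, mul_zero, sub_zero]
  | h2 x z hx hz => rw [map_add, map_add, hx, hz]; noncomm_ring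
  | h3 x m hx =>
    have h1 : ExteriorAlgebra.map (kl i) (io m) = io m - (m i) • e i := by
      unfold io
      rw [ExteriorAlgebra.map_apply_ι]
      have : kl i m = m - (m i) • Finsupp.single i 1 := by
        unfold kl
        simp
      rw [this, map_sub, map_smul]
    have h2 : pa i (io m * x) = (m i) • x - io m * pa i x := by
      unfold pa; rw [CL_io_mul]; rfl
    rw [map_mul, h1, hx, h2, mul_sub, mul_sub, sub_mul, sub_mul, smul_mul_assoc, smul_mul_assoc,
      mul_smul_comm, ← mul_assoc (io m) (e i), io_swap m, ← mul_assoc (e i) (e i)]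
    unfold e
    rw [io_sq, zero_mul, smul_zero]
    noncomm_ring

/-- the linear map that deletes the coordinates below `N` -/
def qN : ℕ → (V →ₗ[ZMod 3] V)
  | 0 => LinearMap.id
  | N + 1 => qN N ∘ₗ kl N

theorem qN_eq (N : ℕ) (v : V) (j : ℕ) : (qN N v) j = if j < N then 0 else v j := by
  induction N generalizing v with
  | zero => simp [qN]
  | succ N ih =>
    have : qN (N + 1) v = qN N (kl N v) := rfl
    rw [this, ih]
    have h2 : (kl N v) j = v j - (Finsupp.single N (v N)) j := rfl
    rw [h2, Finsupp.single_apply]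
    by_cases h : j < N
    · rw [if_pos h, if_pos (by omega)]
    · rw [if_neg h]
      by_cases h3 : N = j
      · subst h3; simp
      · rw [if_neg h3, if_neg (by omega), sub_zero]

theorem qN_comp {N N' : ℕ} (h : N ≤ N') : qN N' ∘ₗ qN N = qN N' := by
  apply LinearMap.ext
  intro v
  apply Finsupp.ext
  intro j
  rw [LinearMap.comp_apply, qN_eq, qN_eq, qN_eq]
  by_cases h1 : j < N'
  · simp [h1]
  · rw [if_neg h1, if_neg h1, if_neg (by omega)]

theorem map_qN_eq_self (N : ℕ) (x : L) (h : ∀ M < N, pa M x = 0) :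
    ExteriorAlgebra.map (qN N) x = x := by
  induction N with
  | zero => exact DFunLike.congr_fun ExteriorAlgebra.map_id x
  | succ N ih =>
    have : ExteriorAlgebra.map (qN (N + 1)) x
        = ExteriorAlgebra.map (qN N) (ExteriorAlgebra.map (kl N) x) := by
      rw [← AlgHom.comp_apply, ExteriorAlgebra.map_comp_map]
      rfl
    rw [this, map_kl, h N (Nat.lt_succ_self N), mul_zero, sub_zero]
    exact ih (fun M hM => h M (Nat.lt_succ_of_lt hM))

theorem exists_map_qN (x : L) : ∃ N, ∃ c : ZMod 3, ∀ N', N ≤ N' →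
    ExteriorAlgebra.map (qN N') x = algebraMap _ _ c := by
  induction x using indL with
  | h1 r => exact ⟨0, r, fun N' _ => AlgHom.commutes _ _⟩
  | h2 x z hx hz =>
    obtain ⟨N, c, hN⟩ := hx
    obtain ⟨N', c', hN'⟩ := hz
    refine ⟨max N N', c + c', fun M hM => ?_⟩
    rw [map_add, hN M (le_trans (le_max_left _ _) hM), hN' M (le_trans (le_max_right _ _) hM), map_add]
  | h3 x m hx =>
    obtain ⟨N, c, hN⟩ := hx
    obtain ⟨N', hN'⟩ := m.support.exists_nat_subset_range
    refine ⟨max N N', 0, fun M hM => ?_⟩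
    have h1 : qN M m = 0 := by
      apply Finsupp.ext
      intro j
      rw [qN_eq]
      by_cases h : j < M
      · simp [h]
      · rw [if_neg h]
        by_contra h2
        have := hN' (Finsupp.mem_support_iff.mpr h2)
        rw [Finset.mem_range] at this
        have := le_trans (le_max_right N N') hM
        omega
    rw [map_mul]
    unfold io
    rw [ExteriorAlgebra.map_apply_ι, h1, map_zero, zero_mul, map_zero]

/-- an element which involves no variable is a scalar -/
theorem scalar_of_pa {x : L} (h : ∀ M, pa M x = 0) : ∃ c : ZMod 3, x = algebraMap _ _ c := by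
  obtain ⟨N, c, hN⟩ := exists_map_qN x
  refine ⟨c, ?_⟩
  rw [← hN N le_rfl, map_qN_eq_self N x (fun M _ => h M)]

/-! ### the shift -/

/-- the shift by `k` -/
def sh (k : ℕ) : V →ₗ[ZMod 3] V := Finsupp.lmapDomain (ZMod 3) (ZMod 3) (fun i => i + k)

theorem sh_apply (k : ℕ) (v : V) (j : ℕ) : (sh k v) (j + k) = v j := by
  show (Finsupp.mapDomain (fun i => i + k) v) (j + k) = v j
  exact Finsupp.mapDomain_apply (fun a b h => by simpa using h) v j

theorem co_sh (k j : ℕ) : (co (j + k)) ∘ₗ (sh k) = co j := by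
  apply LinearMap.ext
  intro v
  exact sh_apply k v j

theorem sh_comp (k l : ℕ) : sh k ∘ₗ sh l = sh (l + k) := by
  apply LinearMap.ext
  intro v
  show Finsupp.mapDomain (fun i => i + k) (Finsupp.mapDomain (fun i => i + l) v) = _
  rw [← Finsupp.mapDomain_comp]
  show _ = Finsupp.mapDomain (fun i => i + (l + k)) v
  congr 1
  funext i
  simp [Function.comp, Nat.add_assoc]

theorem sh_single (k i : ℕ) : sh k (Finsupp.single i 1) = Finsupp.single (i + k) 1 :=
  Finsupp.mapDomain_single

/-- the derivation `e i ↦ e (i + 1)` -/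
abbrev D : L →ₗ[ZMod 3] L := DD (sh 1)

theorem D_e (i : ℕ) : D (e i) = e (i + 1) := by
  unfold D e
  rw [DD_io, sh_single]

/-- a set stable under `D` is stable under the derivations `e i ↦ e (i + 3 ^ m)` -/
theorem stable_pow {P : L → Prop} (hP : ∀ x, P x → P (D x)) (m : ℕ) :
    ∀ x, P x → P (DD (sh (3 ^ m)) x) := by
  induction m with
  | zero => simpa using hP
  | succ m ih =>
    intro x hx
    have h := ih _ (ih _ (ih _ hx))
    rw [DD_cube, sh_comp, sh_comp] at h
    have : 3 ^ m + 3 ^ m + 3 ^ m = 3 ^ (m + 1) := by ring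
    rw [this] at h
    exact h

/-- Main lemma: let `J` be a set of elements of `L` and `A` its left annihilator. If `A` is stable
under `D` and contains a nonzero element then `J ⊆ {0}`. -/
theorem ann_trivial (J : Set L) (hD : ∀ x : L, (∀ b ∈ J, x * b = 0) → ∀ b ∈ J, D x * b = 0)
    (x : L) (hx : ∀ b ∈ J, x * b = 0) (hx0 : x ≠ 0) : ∀ b ∈ J, b = 0 := by
  -- stability under the contractions
  have hpa : ∀ i : ℕ, ∀ x : L, (∀ b ∈ J, x * b = 0) → ∀ b ∈ J, pa i x * b = 0 := by
    intro i x hx b hb
    obtain ⟨N, hN⟩ := exists_bound x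
    obtain ⟨N', hN'⟩ := exists_bound b
    obtain ⟨m, hm⟩ : ∃ m, max N N' ≤ 3 ^ m :=
      ⟨max N N', (Nat.lt_pow_self (by norm_num)).le⟩
    have h1 := stable_pow (P := fun x => ∀ b ∈ J, x * b = 0) hD m x hx b hb
    have h2 := CL_DD (co (i + 3 ^ m)) (sh (3 ^ m)) x
    rw [co_sh] at h2
    have h3 : CL (co (i + 3 ^ m)) x = 0 := hN _ (by have := le_max_left N N'; omega)
    rw [h3, map_zero, zero_add] at h2
    have h4 := CL_mul (co (i + 3 ^ m)) (DD (sh (3 ^ m)) x) b
    have h5 : CL (co (i + 3 ^ m)) b = 0 := hN' _ (by have := le_max_right N N'; omega)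
    rw [h1, h2, h5, map_zero, mul_zero, add_zero] at h4
    exact h4.symm
  obtain ⟨N, hN⟩ := exists_bound x
  induction N generalizing x with
  | zero =>
    obtain ⟨c, hc⟩ := scalar_of_pa (fun M => hN M (Nat.zero_le M))
    intro b hb
    have h := hx b hb
    have hc0 : c ≠ 0 := by
      rintro rfl
      exact hx0 (by rw [hc, map_zero])
    have : Fact (Nat.Prime 3) := ⟨Nat.prime_three⟩
    rw [hc, ← Algebra.smul_def] at h
    exact (smul_eq_zero.mp h).resolve_left hc0
  | succ N ih =>
    by_cases h : pa N x = 0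
    · refine ih x hx hx0 (fun M hM => ?_)
      rcases Nat.eq_or_lt_of_le hM with h1 | h1
      · rw [← h1]; exact h
      · exact hN M h1
    · refine ih (pa N x) (hpa N x hx) h (fun M hM => ?_)
      rcases Nat.eq_or_lt_of_le hM with h1 | h1
      · rw [← h1]; exact CL_CL _ _
      · have : pa M (pa N x) = - pa N (pa M x) := CL_comm _ _ _
        rw [this, hN M h1, map_zero, neg_zero]

end

end Q16.Alt3
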