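import Pool.Agent.Q16.Alt3A

set_option autoImplicit false

/-!
# A prime noncommutative alternative algebra with absolute zero divisors in characteristic three

Let `L` be the exterior algebra over `ZMod 3` in the variables `e 0, e 1, …` with the derivation
`D : e i ↦ e (i + 1)`. The algebra is `Alg = L₀ ⊕ L₁ x` with
`(α + a x) (β + b x) = (α β + a D b - D a b + a b) + (α b + β a) x`.
-/

namespace Q16.Alt3

noncomputable section

/-- `[a, b] = a D b - D a b + a b` -/
def br (a b : L) : L := a * D b - D a * b + a * b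

theorem br_add_left (a a' b : L) : br (a + a') b = br a b + br a' b := by
  unfold br; rw [map_add]; noncomm_ring

theorem br_add_right (a b b' : L) : br a (b + b') = br a b + br a b' := by
  unfold br; rw [map_add]; noncomm_ring

theorem br_zero_left (b : L) : br 0 b = 0 := by
  unfold br; rw [map_zero]; noncomm_ring

theorem br_zero_right (a : L) : br a 0 = 0 := by
  unfold br; rw [map_zero]; noncomm_ring

theorem br_self {a : L} (ha : sg a = -a) : br a a = -(a * D a) := by
  unfold br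
  rw [odd_sq ha, odd_odd (DD_odd (sh 1) ha) ha, sub_neg_eq_add, add_zero, add_self_L]

theorem br_smul_left (α a b : L) : br (α * a) b = α * br a b - D α * (a * b) := by
  unfold br
  rw [DD_mul]
  noncomm_ring

theorem br_smul_right {α : L} (hα : sg α = α) (a b : L) :
    br a (α * b) = α * br a b + D α * (a * b) := by
  unfold br
  have h1 : a * (α * D b) = α * (a * D b) := by rw [← mul_assoc, even_comm hα a, mul_assoc]
  have h2 : a * (D α * b) = D α * (a * b) := by
    rw [← mul_assoc, even_comm (DD_even (sh 1) hα) a, mul_assoc]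
  have h3 : D a * (α * b) = α * (D a * b) := by rw [← mul_assoc, even_comm hα (D a), mul_assoc]
  have h4 : a * (α * b) = α * (a * b) := by rw [← mul_assoc, even_comm hα a, mul_assoc]
  rw [DD_mul, mul_add, h1, h2, h3, h4]
  noncomm_ring

theorem br_five {a : L} (ha : sg a = -a) (b : L) : br a a * b = a * br a b := by
  rw [br_self ha]
  unfold br
  have h1 : a * (a * D b) = 0 := by rw [← mul_assoc, odd_sq ha, zero_mul]
  have h2 : a * (a * b) = 0 := by rw [← mul_assoc, odd_sq ha, zero_mul]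
  rw [mul_add, mul_sub, h1, h2]
  noncomm_ring

theorem br_six {a b : L} (ha : sg a = -a) : br b a * a = b * br a a := by
  rw [br_self ha]
  unfold br
  have h1 : (D b * a) * a = 0 := by rw [mul_assoc, odd_sq ha, mul_zero]
  have h2 : (b * a) * a = 0 := by rw [mul_assoc, odd_sq ha, mul_zero]
  have h3 : (b * D a) * a = - (b * (a * D a)) := by
    rw [mul_assoc, odd_odd (DD_odd (sh 1) ha) ha]; noncomm_ring
  rw [add_mul, sub_mul, h1, h2, h3]
  noncomm_ring

theorem three_add (x : L) : x + x + x = 0 := by rw [add_self_L]; simp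

/-- The full algebra `L ⊕ L x`. -/
def B : Type := L × L

instance : AddCommGroup B := inferInstanceAs (AddCommGroup (L × L))

def B.mk (α a : L) : B := (α, a)
def B.p (u : B) : L := Prod.fst u
def B.q (u : B) : L := Prod.snd u

instance : Mul B := ⟨fun u v => B.mk (u.p * v.p + br u.q v.q) (u.p * v.q + u.q * v.p)⟩

theorem B.ext {u v : B} (h1 : u.p = v.p) (h2 : u.q = v.q) : u = v := Prod.ext h1 h2

@[simp] theorem B.p_mk (α a : L) : (B.mk α a).p = α := rfl
@[simp] theorem B.q_mk (α a : L) : (B.mk α a).q = a := rfl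
@[simp] theorem B.p_add (u v : B) : (u + v).p = u.p + v.p := rfl
@[simp] theorem B.q_add (u v : B) : (u + v).q = u.q + v.q := rfl
@[simp] theorem B.p_sub (u v : B) : (u - v).p = u.p - v.p := rfl
@[simp] theorem B.q_sub (u v : B) : (u - v).q = u.q - v.q := rfl
@[simp] theorem B.p_neg (u : B) : (-u).p = -u.p := rfl
@[simp] theorem B.q_neg (u : B) : (-u).q = -u.q := rfl
@[simp] theorem B.p_zero : (0 : B).p = 0 := rfl
@[simp] theorem B.q_zero : (0 : B).q = 0 := rfl
@[simp] theorem B.p_mul (u v : B) : (u * v).p = u.p * v.p + br u.q v.q := rfl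
@[simp] theorem B.q_mul (u v : B) : (u * v).q = u.p * v.q + u.q * v.p := rfl

instance : NonUnitalNonAssocRing B where
  left_distrib u v w := by
    apply B.ext
    · simp only [B.p_mul, B.p_add, B.q_add, br_add_right]; noncomm_ring
    · simp only [B.q_mul, B.p_add, B.q_add]; noncomm_ring
  right_distrib u v w := by
    apply B.ext
    · simp only [B.p_mul, B.p_add, B.q_add, br_add_left]; noncomm_ring
    · simp only [B.q_mul, B.p_add, B.q_add]; noncomm_ring
  zero_mul u := by
    apply B.ext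
    · simp only [B.p_mul, B.p_zero, B.q_zero, br_zero_left, zero_mul, add_zero]
    · simp only [B.q_mul, B.p_zero, B.q_zero, zero_mul, add_zero]
  mul_zero u := by
    apply B.ext
    · simp only [B.p_mul, B.p_zero, B.q_zero, br_zero_right, mul_zero, add_zero]
    · simp only [B.q_mul, B.p_zero, B.q_zero, mul_zero, add_zero]

/-- The subring `L₀ ⊕ L₁ x`. -/
def PP : NonUnitalSubring B where
  carrier := {u | sg u.p = u.p ∧ sg u.q = -u.q}
  add_mem' := by
    rintro u v ⟨h1, h2⟩ ⟨h3, h4⟩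
    refine ⟨?_, ?_⟩
    · rw [B.p_add, map_add, h1, h3]
    · rw [B.q_add, map_add, h2, h4]; abel
  zero_mem' := by
    refine ⟨?_, ?_⟩
    · rw [B.p_zero, map_zero]
    · rw [B.q_zero, map_zero, neg_zero]
  neg_mem' := by
    rintro u ⟨h1, h2⟩
    refine ⟨?_, ?_⟩
    · rw [B.p_neg, map_neg, h1]
    · rw [B.q_neg, map_neg, h2]
  mul_mem' := by
    rintro u v ⟨h1, h2⟩ ⟨h3, h4⟩
    refine ⟨?_, ?_⟩
    · rw [B.p_mul, map_add, map_mul, h1, h3]
      unfold br
      rw [map_add, map_sub, map_mul, map_mul, map_mul, h2, h4, DD_odd (sh 1) h2, DD_odd (sh 1) h4]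
      noncomm_ring
    · rw [B.q_mul, map_add, map_mul, map_mul, h1, h2, h3, h4]
      noncomm_ring

abbrev Alg : Type := PP

theorem Alg.hp (u : Alg) : sg u.1.p = u.1.p := u.2.1
theorem Alg.hq (u : Alg) : sg u.1.q = -u.1.q := u.2.2

/-- the elements of `L₀` -/
def E (α : L) (h : sg α = α) : Alg := ⟨B.mk α 0, h, by rw [B.q_mk, map_zero, neg_zero]⟩
/-- the elements of `L₁ x` -/
def O (a : L) (h : sg a = -a) : Alg := ⟨B.mk 0 a, by rw [B.p_mk, map_zero], h⟩

theorem left_alt (x y : Alg) : (x * x) * y = x * (x * y) := by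
  apply Subtype.ext
  obtain ⟨x, hx1, hx2⟩ := x
  obtain ⟨y, hy1, hy2⟩ := y
  show (x * x) * y = x * (x * y)
  apply B.ext
  · simp only [B.p_mul, B.q_mul]
    have h1 : x.q * x.p = x.p * x.q := even_comm hx1 _
    have h2 : x.q * y.p = y.p * x.q := even_comm hy1 _
    rw [h1, h2, br_add_left, br_add_right, br_smul_left, br_smul_right hx1, br_smul_right hy1,
      odd_sq hx2, mul_zero, add_zero]
    have h3 : br x.q x.q * y.p = y.p * br x.q x.q := even_comm hy1 _
    rw [add_mul, h3]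
    have h4 := three_add (D x.p * (x.q * y.q))
    have h5 : x.p * br x.q y.q - D x.p * (x.q * y.q) + (x.p * br x.q y.q - D x.p * (x.q * y.q)) =
      x.p * br x.q y.q + (x.p * br x.q y.q + D x.p * (x.q * y.q)) -
        (D x.p * (x.q * y.q) + D x.p * (x.q * y.q) + D x.p * (x.q * y.q)) := by abel
    rw [h5, h4, sub_zero]
    noncomm_ring
  · simp only [B.p_mul, B.q_mul]
    have h := br_five hx2 y.q
    rw [add_mul, h]
    noncomm_ring

theorem right_alt (x y : Alg) : (y * x) * x = y * (x * x) := by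
  apply Subtype.ext
  obtain ⟨x, hx1, hx2⟩ := x
  obtain ⟨y, hy1, hy2⟩ := y
  show (y * x) * x = y * (x * x)
  apply B.ext
  · simp only [B.p_mul, B.q_mul]
    have h1 : x.q * x.p = x.p * x.q := even_comm hx1 _
    have h2 : y.q * x.p = x.p * y.q := even_comm hx1 _
    rw [h1, h2, br_add_left, br_add_right, br_smul_left, br_smul_left, br_smul_right hx1,
      odd_sq hx2, mul_zero, sub_zero]
    have h3 : br y.q x.q * x.p = x.p * br y.q x.q := even_comm hx1 _
    rw [add_mul, h3]
    have h4 := three_add (D x.p * (y.q * x.q))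
    have h5 : x.p * br y.q x.q - D x.p * (y.q * x.q) =
      x.p * br y.q x.q + D x.p * (y.q * x.q) + D x.p * (y.q * x.q) -
        (D x.p * (y.q * x.q) + D x.p * (y.q * x.q) + D x.p * (y.q * x.q)) := by abel
    rw [h5, h4, sub_zero]
    noncomm_ring
  · simp only [B.p_mul, B.q_mul]
    have h := br_six (b := y.q) hx2
    rw [add_mul, h]
    noncomm_ring

/-! ### ideals -/

/-- two-sided ideals -/
def IsId (I : Submodule ℤ Alg) : Prop := ∀ a x : Alg, x ∈ I → a * x ∈ I ∧ x * a ∈ I

/-- the intersection of an ideal with `L₀` -/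
def I0 (I : Submodule ℤ Alg) : Set L := {α | ∃ h : sg α = α, E α h ∈ I}

theorem sub_even {x y : L} (hx : sg x = x) (hy : sg y = y) : sg (x - y) = x - y := by
  rw [map_sub, hx, hy]

theorem I0_D {I : Submodule ℤ Alg} (hI : IsId I) {α : L} (hα : α ∈ I0 I) {b c : L}
    (hb : sg b = -b) (hc : sg c = -c) : D α * (b * c) ∈ I0 I := by
  obtain ⟨h, hE⟩ := hα
  have hDα := DD_even (sh 1) h
  have hbc : sg (b * c) = b * c := by rw [map_mul, hb, hc]; noncomm_ring
  have hs : sg (D α * (b * c)) = D α * (b * c) := by rw [map_mul, hDα, hbc]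
  refine ⟨hs, ?_⟩
  have m1 : (O b hb * E α h) * O c hc ∈ I := (hI _ _ (hI _ _ hE).1).2
  have m2 : O b hb * (E α h * O c hc) ∈ I := (hI _ _ (hI _ _ hE).2).1
  have m3 := I.sub_mem m1 m2
  have e1 : (O b hb * E α h) * O c hc - O b hb * (E α h * O c hc) = E _ hs := by
    apply Subtype.ext
    apply B.ext
    · show (0 * α + br b 0) * 0 + br (0 * 0 + b * α) c - (0 * (α * 0 + br 0 c) + br b (α * c + 0 * 0))
        = D α * (b * c)
      rw [even_comm h b]
      simp only [zero_mul, mul_zero, zero_add, add_zero]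
      rw [br_smul_left, br_smul_right h]
      have h4 := three_add (D α * (b * c))
      have h5 : α * br b c - D α * (b * c) - (α * br b c + D α * (b * c)) = D α * (b * c) -
        (D α * (b * c) + D α * (b * c) + D α * (b * c)) := by abel
      rw [h5, h4, sub_zero]
    · show (0 * α + br b 0) * c + (0 * 0 + b * α) * 0 - (0 * (α * c + 0 * 0) + b * (α * 0 + br 0 c)) = 0
      simp only [br_zero_left, br_zero_right, zero_mul, mul_zero, add_zero, sub_zero]
  rw [e1] at m3
  exact m3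

theorem I0_of {I : Submodule ℤ Alg} (hI : IsId I) {u : Alg} (hu : u ∈ I) {β c : L}
    (hβ : sg β = β) (hc : sg c = -c) : D β * (u.1.q * c) ∈ I0 I := by
  have hDβ := DD_even (sh 1) hβ
  have hbc : sg (u.1.q * c) = u.1.q * c := by rw [map_mul, Alg.hq u, hc]; noncomm_ring
  have hs : sg (D β * (u.1.q * c)) = D β * (u.1.q * c) := by rw [map_mul, hDβ, hbc]
  refine ⟨hs, ?_⟩
  have m1 : (E β hβ * u) * O c hc ∈ I := (hI _ _ (hI _ _ hu).1).2
  have m2 : E β hβ * (u * O c hc) ∈ I := (hI _ _ (hI _ _ hu).2).1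
  have m3 := I.sub_mem m2 m1
  have e1 : E β hβ * (u * O c hc) - (E β hβ * u) * O c hc = E _ hs := by
    apply Subtype.ext
    apply B.ext
    · show (β * (u.1.p * 0 + br u.1.q c) + br 0 (u.1.p * c + u.1.q * 0)) -
        ((β * u.1.p + br 0 u.1.q) * 0 + br (β * u.1.q + 0 * u.1.p) c) = D β * (u.1.q * c)
      simp only [br_zero_left, zero_mul, mul_zero, add_zero, zero_add]
      rw [br_smul_left]
      noncomm_ring
    · show (β * (u.1.p * c + u.1.q * 0) + 0 * (u.1.p * 0 + br u.1.q c)) -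
        ((β * u.1.p + br 0 u.1.q) * c + (β * u.1.q + 0 * u.1.p) * 0) = 0
      simp only [br_zero_left, zero_mul, mul_zero, add_zero]
      noncomm_ring
  rw [e1] at m3
  exact m3

theorem far {i j : ℕ} (hij : i ≠ j) {x : L} (hi : pa i x = 0) (hj : pa j x = 0)
    (h : e i * (e j * x) = 0) : x = 0 := by
  refine e_mul_eq_zero hj (e_mul_eq_zero ?_ h)
  rw [pa_e, if_neg hij, hi, mul_zero, sub_zero]

theorem ee_even (i j : ℕ) : sg (e i * e j) = e i * e j := by
  rw [map_mul, sg_e, sg_e]; noncomm_ring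

/-- a nonzero ideal contains a nonzero element of `L₀` -/
theorem exists_I0 {I : Submodule ℤ Alg} (hI : IsId I) (h : I ≠ ⊥) : ∃ α ∈ I0 I, α ≠ 0 := by
  obtain ⟨u, hu, hu0⟩ := (Submodule.ne_bot_iff I).mp h
  by_cases hq : u.1.q = 0
  · refine ⟨u.1.p, ⟨Alg.hp u, ?_⟩, ?_⟩
    · have : E u.1.p (Alg.hp u) = u := by
        apply Subtype.ext
        apply B.ext
        · rfl
        · exact hq.symm
      rw [this]; exact hu
    · intro hp
      apply hu0
      apply Subtype.ext
      exact B.ext hp hq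
  · obtain ⟨N, hN⟩ := exists_bound u.1.q
    refine ⟨D (e N * e (N + 1)) * (u.1.q * e (N + 3)), I0_of hI hu (ee_even _ _) (sg_e _), ?_⟩
    intro h0
    apply hq
    have h1 : D (e N * e (N + 1)) = e N * e (N + 2) := by
      rw [DD_mul, D_e, D_e, io_sq, add_zero]
    have h2 : u.1.q * e (N + 3) = - (e (N + 3) * u.1.q) := odd_odd (Alg.hq u) (sg_e _)
    rw [h1, h2, mul_neg, neg_eq_zero, mul_assoc] at h0
    have p0 := hN N le_rfl
    have p2 := hN (N + 2) (by omega)
    have p3 := hN (N + 3) (by omega)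
    refine e_mul_eq_zero p3 (far (i := N) (j := N + 2) (by omega) ?_ ?_ h0)
    · rw [pa_e, if_neg (by omega), p0, mul_zero, sub_zero]
    · rw [pa_e, if_neg (by omega), p2, mul_zero, sub_zero]

theorem prime (I J : Submodule ℤ Alg) (hI : IsId I) (hJ : IsId J)
    (h : ∀ x y : Alg, x ∈ I → y ∈ J → x * y = 0) : I = ⊥ ∨ J = ⊥ := by
  by_contra hc
  push Not at hc
  obtain ⟨hI0, hJ0⟩ := hc
  obtain ⟨α, hα, hα0⟩ := exists_I0 hI hI0
  obtain ⟨β, hβ, hβ0⟩ := exists_I0 hJ hJ0
  refine hβ0 (ann_trivial (I0 J) ?_ α ?_ hα0 β hβ)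
  · intro x hx b hb
    have h1 : x * D b = 0 := by
      obtain ⟨N, hN⟩ := exists_bound (x * D b)
      have h2 := hx _ (I0_D hJ hb (sg_e N) (sg_e (N + 1)))
      rw [← mul_assoc, even_comm (ee_even N (N + 1)), mul_assoc] at h2
      exact far (i := N) (j := N + 1) (by omega) (hN _ le_rfl) (hN _ (by omega)) h2
    have h3 : D (x * b) = 0 := by rw [hx b hb, map_zero]
    rw [DD_mul, h1, zero_add] at h3
    exact h3
  · intro b hb
    obtain ⟨h1, h2⟩ := hα
    obtain ⟨h3, h4⟩ := hb
    have h5 := h _ _ h2 h4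
    have h6 : (E α h1 * E b h3).1.p = 0 := by rw [h5]; rfl
    have h7 : (E α h1 * E b h3).1.p = α * b + br 0 0 := rfl
    rw [h7, br_zero_left, add_zero] at h6
    exact h6

theorem e01_ne {i j : ℕ} (hij : i ≠ j) : e i * e j ≠ 0 := by
  intro h
  have h1 : e i * (e j * 1) = 0 := by rw [mul_one]; exact h
  have p : ∀ k, pa k (1 : L) = 0 := fun k => by
    have := CL_algebraMap (co k) 1
    rw [map_one] at this
    exact this
  exact one_ne_zero (far hij (p i) (p j) h1)

theorem noncomm : ∃ x y : Alg, x * y ≠ y * x := by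
  refine ⟨O (e 0) (sg_e 0), O (e 1) (sg_e 1), fun h => ?_⟩
  have h1 : (O (e 0) (sg_e 0) * O (e 1) (sg_e 1)).1.p = (O (e 1) (sg_e 1) * O (e 0) (sg_e 0)).1.p := by
    rw [h]
  have h2 : (0 : L) * 0 + br (e 0) (e 1) = 0 * 0 + br (e 1) (e 0) := h1
  rw [zero_mul, zero_add, zero_add] at h2
  unfold br at h2
  rw [D_e, D_e] at h2
  have h3 : e (0 + 1) * e 1 = 0 := io_sq _
  have h5 : e (1 + 1) * e 0 = - (e 0 * e (1 + 1)) := io_swap _ _
  have h6 : e 1 * e 0 = - (e 0 * e 1) := io_swap _ _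
  rw [h3, h5, h6] at h2
  have h7 : e 0 * e 1 + e 0 * e 1 = 0 := by
    have : e 0 * e 1 + e 0 * e 1 = (e 0 * e (1 + 1) - 0 + e 0 * e 1) -
      (0 - -(e 0 * e (1 + 1)) + -(e 0 * e 1)) := by abel
    rw [this, h2, sub_self]
  rw [add_self_L, neg_eq_zero] at h7
  exact e01_ne (by norm_num) h7

theorem nonassoc : ∃ x y z : Alg, (x * y) * z ≠ x * (y * z) := by
  refine ⟨E (e 0 * e 1) (ee_even 0 1), O (e 3) (sg_e 3), O (e 4) (sg_e 4), fun h => ?_⟩
  have h1 : ((E (e 0 * e 1) (ee_even 0 1) * O (e 3) (sg_e 3)) * O (e 4) (sg_e 4)).1.p =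
    (E (e 0 * e 1) (ee_even 0 1) * (O (e 3) (sg_e 3) * O (e 4) (sg_e 4))).1.p := by rw [h]
  have h2 : ((e 0 * e 1) * 0 + br 0 (e 3)) * 0 + br ((e 0 * e 1) * e 3 + 0 * 0) (e 4) =
    (e 0 * e 1) * (0 * 0 + br (e 3) (e 4)) + br 0 (0 * e 4 + e 3 * 0) := h1
  simp only [br_zero_left, zero_mul, mul_zero, add_zero, zero_add] at h2
  rw [br_smul_left, sub_eq_self, DD_mul, D_e, D_e] at h2
  have h3 : e (0 + 1) * e 1 = 0 := io_sq _
  rw [h3, add_zero, mul_assoc] at h2
  have p : ∀ k, k ≠ 3 → k ≠ 4 → pa k (e 3 * e 4) = 0 := by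
    intro k h3 h4
    have h5 : pa k (1 : L) = 0 := by
      have := CL_algebraMap (co k) 1
      rw [map_one] at this
      exact this
    have h6 : pa k (e 4) = 0 := by
      have := pa_e k 4 1
      rwa [mul_one, if_neg h4, h5, mul_zero, sub_zero] at this
    rw [pa_e, if_neg h3, h6, mul_zero, sub_zero]
  exact e01_ne (i := 3) (j := 4) (by norm_num)
    (far (i := 0) (j := 1 + 1) (by norm_num) (p _ (by norm_num) (by norm_num))
      (p _ (by norm_num) (by norm_num)) h2)

theorem zerodiv : ∃ z : Alg, z ≠ 0 ∧ ∀ x : Alg, (z * x) * z = 0 := by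
  refine ⟨E (e 0 * e 1) (ee_even 0 1), fun h => ?_, fun x => ?_⟩
  · have h1 : (E (e 0 * e 1) (ee_even 0 1)).1.p = 0 := by rw [h]; rfl
    exact e01_ne (i := 0) (j := 1) (by norm_num) h1
  · have hz : (e 0 * e 1) * (e 0 * e 1) = 0 := by
      rw [← mul_assoc, even_comm (ee_even 0 1) (e 0) |>.symm, ← mul_assoc, io_sq, zero_mul, zero_mul]
    have key : ∀ w : L, (e 0 * e 1) * w * (e 0 * e 1) = 0 := by
      intro w
      rw [even_comm (ee_even 0 1), ← mul_assoc, hz, zero_mul]
    apply Subtype.ext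
    apply B.ext
    · show ((e 0 * e 1) * x.1.p + br 0 x.1.q) * (e 0 * e 1) + br ((e 0 * e 1) * x.1.q + 0 * x.1.p) 0 = 0
      rw [br_zero_left, br_zero_right, add_zero, add_zero, key]
    · show ((e 0 * e 1) * x.1.p + br 0 x.1.q) * 0 + ((e 0 * e 1) * x.1.q + 0 * x.1.p) * (e 0 * e 1) = 0
      rw [mul_zero, zero_mul, add_zero, zero_add, key]

end

end Q16.Alt3
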