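import Pool.Agent.Q61.BS.Stm

/-!
# Project BS, job AGR
-/

set_option autoImplicit false

open MeasureTheory Set Filter Topology Real

noncomputable section

namespace Pool.Agent.Q16.BS_AGR

open Pool.Agent.Q61.BS

theorem agr (h : S_rec) : S_agr := by
  intro β₁ β₂ h1 h2
  obtain ⟨hb, hh, hr⟩ := h β₁ β₂ h1 h2
  have hA : ∀ (n : ℕ) (ω ω' : ℕ → Fin 4), (∀ k < n, ω k = ω' k) →
      |YY β₁ β₂ ω - YY β₁ β₂ ω'| ≤ hgt β₁ β₂ ω n := by
    intro n
    induction n with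
    | zero =>
      intro ω ω' _
      obtain ⟨-, -, -, -, -, -, a1, a2⟩ := hr ω
      obtain ⟨-, -, -, -, -, -, b1, b2⟩ := hr ω'
      have : hgt β₁ β₂ ω 0 = 1 := by simp [hgt]
      rw [this, abs_le]
      constructor <;> linarith
    | succ n ih =>
      intro ω ω' hk
      obtain ⟨-, -, -, e1, -, -, -, -⟩ := hr ω
      obtain ⟨-, -, -, e2, -, -, -, -⟩ := hr ω'
      have h0 : ω 0 = ω' 0 := hk 0 (Nat.succ_pos n)
      have h3 := ih (sh ω) (sh ω') (fun k hk' => hk (k + 1) (by omega))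
      rw [(hh ω n).2.2, e1, e2, ← h0]
      have h4 : ((ω 0 : ℕ) : ℝ) / 4 + bb β₁ β₂ (ω 0) * YY β₁ β₂ (sh ω) -
          (((ω 0 : ℕ) : ℝ) / 4 + bb β₁ β₂ (ω 0) * YY β₁ β₂ (sh ω')) =
          bb β₁ β₂ (ω 0) * (YY β₁ β₂ (sh ω) - YY β₁ β₂ (sh ω')) := by ring
      rw [h4, abs_mul, abs_of_pos (hb (ω 0)).1]
      exact mul_le_mul_of_nonneg_left h3 (hb (ω 0)).1.le
  have hB : ∀ (n : ℕ) (ω ω' : ℕ → Fin 4), (∀ k < n, (ω k = 0 ↔ ω' k = 0)) →
      |XX ω - XX ω'| ≤ (1 / 5) ^ n := by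
    intro n
    induction n with
    | zero =>
      intro ω ω' _
      obtain ⟨-, -, -, -, a1, a2, -, -⟩ := hr ω
      obtain ⟨-, -, -, -, b1, b2, -, -⟩ := hr ω'
      rw [pow_zero, abs_le]
      constructor <;> linarith
    | succ n ih =>
      intro ω ω' hk
      obtain ⟨-, -, e1, -, -, -, -, -⟩ := hr ω
      obtain ⟨-, -, e2, -, -, -, -, -⟩ := hr ω'
      have h0 : (ω 0 = 0 ↔ ω' 0 = 0) := hk 0 (Nat.succ_pos n)
      have hc : cl (ω 0) = cl (ω' 0) := by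
        unfold cl
        by_cases hz : ω 0 = 0
        · rw [if_pos hz, if_pos (h0.mp hz)]
        · rw [if_neg hz, if_neg (fun h' => hz (h0.mpr h'))]
      have h3 := ih (sh ω) (sh ω') (fun k hk' => hk (k + 1) (by omega))
      rw [e1, e2, ← hc]
      have h4 : cl (ω 0) / 4 + 1 / 5 * XX (sh ω) - (cl (ω 0) / 4 + 1 / 5 * XX (sh ω')) =
          1 / 5 * (XX (sh ω) - XX (sh ω')) := by ring
      rw [h4, abs_mul, abs_of_pos (by norm_num : (0 : ℝ) < 1 / 5), pow_succ']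
      exact mul_le_mul_of_nonneg_left h3 (by norm_num)
  intro ω ω' n
  exact ⟨hA n ω ω', hB n ω ω'⟩

end Pool.Agent.Q16.BS_AGR
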