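import Pool.Agent.Q61.BS.Stm

/-!
# Project BS, job LIM
-/

set_option autoImplicit false

open MeasureTheory Set Filter Topology Real

noncomputable section

namespace Pool.Agent.Q16.BS_LIM

open Pool.Agent.Q61.BS

theorem mem_E0 (e : (i : Fin 2) → (fun _ : Fin 2 => Fin 4) i) : e ∈ E0 ↔ ∃ j, e = Pool.Agent.Q61.BS.em j := by
  unfold E0 Pool.Agent.Q61.BS.em
  simp only [mem_insert_iff, mem_singleton_iff]
  constructor
  · rintro (h | h | h | h)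
    · exact ⟨0, by rw [h]; rfl⟩
    · exact ⟨1, by rw [h]; rfl⟩
    · exact ⟨2, by rw [h]; rfl⟩
    · exact ⟨3, by rw [h]; rfl⟩
  · rintro ⟨j, hj⟩
    fin_cases j
    · left; rw [hj]; rfl
    · right; left; rw [hj]; rfl
    · right; right; left; rw [hj]; rfl
    · right; right; right; rw [hj]; rfl

theorem em_zero (j : Fin 4) : (((Pool.Agent.Q61.BS.em j 0 : Fin 4) : ℕ) : ℝ) = cl j := by
  unfold Pool.Agent.Q61.BS.em cl
  by_cases h : j = 0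
  · simp [h]
  · simp [h]

theorem em_one (j : Fin 4) : (Pool.Agent.Q61.BS.em j 1 : Fin 4) = j := rfl

theorem phiV_zero (β₁ β₂ : ℝ) (j : Fin 4) (x : EuclideanSpace ℝ (Fin 2)) :
    (phiV (par β₁ β₂) (Pool.Agent.Q61.BS.em j) x) 0 = 1 / 5 * x 0 + cl j / 4 := by
  rw [← em_zero j]
  simp [phiV, phi, par]

theorem phiV_one (β₁ β₂ : ℝ) (j : Fin 4) (x : EuclideanSpace ℝ (Fin 2)) :
    (phiV (par β₁ β₂) (Pool.Agent.Q61.BS.em j) x) 1 = bb β₁ β₂ j * x 1 + ((j : ℕ) : ℝ) / 4 := by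
  simp only [phiV, phi, par]
  simp [em_one]

theorem comp_zero (β₁ β₂ : ℝ) (ω : ℕ → Fin 4) (n : ℕ) : ∀ x : EuclideanSpace ℝ (Fin 2),
    (comp (par β₁ β₂) (fun k => Pool.Agent.Q61.BS.em (ω k)) n x) 0 =
      ∑ k ∈ Finset.range n, (1 / 5 : ℝ) ^ k * (cl (ω k) / 4) + (1 / 5) ^ n * x 0 := by
  induction n with
  | zero => intro x; simp [comp]
  | succ n ih =>
    intro x
    have h : comp (par β₁ β₂) (fun k => Pool.Agent.Q61.BS.em (ω k)) (n + 1) x =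
      comp (par β₁ β₂) (fun k => Pool.Agent.Q61.BS.em (ω k)) n (phiV (par β₁ β₂) (Pool.Agent.Q61.BS.em (ω n)) x) := rfl
    rw [h, ih, phiV_zero, Finset.sum_range_succ, pow_succ]
    ring

theorem comp_one (β₁ β₂ : ℝ) (ω : ℕ → Fin 4) (n : ℕ) : ∀ x : EuclideanSpace ℝ (Fin 2),
    (comp (par β₁ β₂) (fun k => Pool.Agent.Q61.BS.em (ω k)) n x) 1 =
      ∑ k ∈ Finset.range n, hgt β₁ β₂ ω k * (((ω k : ℕ) : ℝ) / 4) + hgt β₁ β₂ ω n * x 1 := by
  induction n with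
  | zero => intro x; simp [comp, hgt]
  | succ n ih =>
    intro x
    have h : comp (par β₁ β₂) (fun k => Pool.Agent.Q61.BS.em (ω k)) (n + 1) x =
      comp (par β₁ β₂) (fun k => Pool.Agent.Q61.BS.em (ω k)) n (phiV (par β₁ β₂) (Pool.Agent.Q61.BS.em (ω n)) x) := rfl
    have h2 : hgt β₁ β₂ ω (n + 1) = hgt β₁ β₂ ω n * bb β₁ β₂ (ω n) := by
      unfold hgt
      rw [Finset.prod_range_succ]
    rw [h, ih, phiV_one, Finset.sum_range_succ, h2]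
    ring

theorem tendsto_iff (f : ℕ → EuclideanSpace ℝ (Fin 2)) (y : EuclideanSpace ℝ (Fin 2)) :
    Tendsto f atTop (𝓝 y) ↔ Tendsto (fun n => f n 0) atTop (𝓝 (y 0)) ∧
      Tendsto (fun n => f n 1) atTop (𝓝 (y 1)) := by
  have h1 : Tendsto f atTop (𝓝 y) ↔
      Tendsto (fun n => (EuclideanSpace.equiv (Fin 2) ℝ) (f n)) atTop
        (𝓝 ((EuclideanSpace.equiv (Fin 2) ℝ) y)) :=
    (EuclideanSpace.equiv (Fin 2) ℝ).toHomeomorph.isInducing.tendsto_nhds_iff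
  rw [h1, tendsto_pi_nhds]
  constructor
  · intro h
    exact ⟨h 0, h 1⟩
  · rintro ⟨h0, h1⟩ i
    fin_cases i
    · exact h0
    · exact h1

/-- The linear homeomorphism. -/
def eqv : (ℝ × ℝ) ≃L[ℝ] EuclideanSpace ℝ (Fin 2) :=
  (ContinuousLinearEquiv.finTwoArrow ℝ ℝ).symm.trans (EuclideanSpace.equiv (Fin 2) ℝ).symm

theorem eqv_zero (p : ℝ × ℝ) : (eqv p) 0 = p.1 := rfl

theorem eqv_one (p : ℝ × ℝ) : (eqv p) 1 = p.2 := rfl

theorem tendsto_pt (h : S_rec) {β₁ β₂ : ℝ} (h1 : log 5 ≤ β₁) (h2 : log 5 ≤ β₂) (ω : ℕ → Fin 4) :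
    Tendsto (fun n => comp (par β₁ β₂) (fun k => Pool.Agent.Q61.BS.em (ω k)) n 0) atTop (𝓝 (eqv (pt β₁ β₂ ω))) := by
  obtain ⟨-, -, hr⟩ := h β₁ β₂ h1 h2
  obtain ⟨s1, s2, -, -, -, -, -, -⟩ := hr ω
  rw [tendsto_iff]
  constructor
  · rw [eqv_zero]
    have := s1.hasSum.tendsto_sum_nat
    refine this.congr (fun n => ?_)
    rw [comp_zero]
    simp
  · rw [eqv_one]
    have := s2.hasSum.tendsto_sum_nat
    refine this.congr (fun n => ?_)
    rw [comp_one]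
    simp

theorem lim1 (h : S_rec) : S_lim := by
  intro β₁ β₂ h1 h2
  have key : Lam E0 (par β₁ β₂) = eqv '' (range (pt β₁ β₂)) := by
    ext x
    constructor
    · rintro ⟨η, hη, hlim⟩
      choose ω hω using fun n => (mem_E0 (η n)).mp (hη n)
      have he : η = fun k => Pool.Agent.Q61.BS.em (ω k) := funext hω
      rw [he] at hlim
      refine ⟨pt β₁ β₂ ω, ⟨ω, rfl⟩, ?_⟩
      exact tendsto_nhds_unique (tendsto_pt h h1 h2 ω) hlim
    · rintro ⟨p, ⟨ω, rfl⟩, rfl⟩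
      exact ⟨fun k => Pool.Agent.Q61.BS.em (ω k), fun n => (mem_E0 _).mpr ⟨ω n, rfl⟩, tendsto_pt h h1 h2 ω⟩
  rw [key]
  exact eqv.dimH_image _

end Pool.Agent.Q16.BS_LIM
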