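import Pool.Agent.Q61.BS.Stm

/-!
# Project BS, job REC
-/

set_option autoImplicit false

open MeasureTheory Set Filter Topology Real

noncomputable section

namespace Pool.Agent.Q16.BS_REC

open Pool.Agent.Q61.BS

theorem bb_pos (β₁ β₂ : ℝ) (j : Fin 4) : 0 < bb β₁ β₂ j := by
  unfold bb
  split_ifs <;> exact exp_pos _

theorem exp_le {β : ℝ} (h : log 5 ≤ β) : exp (-β) ≤ 1 / 5 := by
  have h1 : exp (-β) ≤ exp (-log 5) := exp_le_exp.mpr (by linarith)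
  have h2 : exp (-log 5) = (1 / 5 : ℝ) := by
    rw [exp_neg, exp_log (by norm_num)]
    norm_num
  linarith [h1, h2.le]

theorem bb_le {β₁ β₂ : ℝ} (h1 : log 5 ≤ β₁) (h2 : log 5 ≤ β₂) (j : Fin 4) :
    bb β₁ β₂ j ≤ 1 / 5 := by
  unfold bb
  split_ifs
  · exact exp_le h1
  · exact exp_le h2

theorem hgt_pos (β₁ β₂ : ℝ) (ω : ℕ → Fin 4) (n : ℕ) : 0 < hgt β₁ β₂ ω n :=
  Finset.prod_pos (fun _ _ => bb_pos β₁ β₂ _)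

theorem hgt_le {β₁ β₂ : ℝ} (h1 : log 5 ≤ β₁) (h2 : log 5 ≤ β₂) (ω : ℕ → Fin 4) (n : ℕ) :
    hgt β₁ β₂ ω n ≤ (1 / 5) ^ n := by
  unfold hgt
  calc ∏ k ∈ Finset.range n, bb β₁ β₂ (ω k) ≤ ∏ _k ∈ Finset.range n, (1 / 5 : ℝ) :=
        Finset.prod_le_prod (fun _ _ => (bb_pos β₁ β₂ _).le) (fun _ _ => bb_le h1 h2 _)
    _ = (1 / 5) ^ n := by simp

theorem hgt_succ (β₁ β₂ : ℝ) (ω : ℕ → Fin 4) (n : ℕ) :
    hgt β₁ β₂ ω (n + 1) = bb β₁ β₂ (ω 0) * hgt β₁ β₂ (sh ω) n := by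
  unfold hgt sh
  rw [Finset.prod_range_succ']
  ring

theorem cl_nonneg (j : Fin 4) : 0 ≤ cl j := by
  unfold cl
  split_ifs <;> norm_num

theorem cl_le (j : Fin 4) : cl j ≤ 1 := by
  unfold cl
  split_ifs <;> norm_num

theorem dig_le (j : Fin 4) : ((j : ℕ) : ℝ) ≤ 3 := by
  have h : (j : ℕ) ≤ 3 := by omega
  exact_mod_cast h

theorem geo_summable : Summable (fun n : ℕ => (1 / 5 : ℝ) ^ n * (3 / 4)) :=
  (summable_geometric_of_lt_one (by norm_num) (by norm_num)).mul_right _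

theorem geo_sum : ∑' n : ℕ, (1 / 5 : ℝ) ^ n * (3 / 4) = 15 / 16 := by
  rw [tsum_mul_right, tsum_geometric_of_lt_one (by norm_num) (by norm_num)]
  norm_num

theorem X_nonneg (ω : ℕ → Fin 4) (n : ℕ) : 0 ≤ (1 / 5 : ℝ) ^ n * (cl (ω n) / 4) :=
  mul_nonneg (by positivity) (div_nonneg (cl_nonneg _) (by norm_num))

theorem X_le (ω : ℕ → Fin 4) (n : ℕ) :
    (1 / 5 : ℝ) ^ n * (cl (ω n) / 4) ≤ (1 / 5 : ℝ) ^ n * (3 / 4) := by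
  have h := cl_le (ω n)
  exact mul_le_mul_of_nonneg_left (by linarith) (by positivity)

theorem Y_nonneg (β₁ β₂ : ℝ) (ω : ℕ → Fin 4) (n : ℕ) :
    0 ≤ hgt β₁ β₂ ω n * (((ω n : ℕ) : ℝ) / 4) :=
  mul_nonneg (hgt_pos β₁ β₂ ω n).le (by positivity)

theorem Y_le {β₁ β₂ : ℝ} (h1 : log 5 ≤ β₁) (h2 : log 5 ≤ β₂) (ω : ℕ → Fin 4) (n : ℕ) :
    hgt β₁ β₂ ω n * (((ω n : ℕ) : ℝ) / 4) ≤ (1 / 5 : ℝ) ^ n * (3 / 4) := by
  have h := dig_le (ω n)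
  exact mul_le_mul (hgt_le h1 h2 ω n) (by linarith) (by positivity) (by positivity)

theorem X_summable (ω : ℕ → Fin 4) : Summable fun n => (1 / 5 : ℝ) ^ n * (cl (ω n) / 4) :=
  Summable.of_nonneg_of_le (X_nonneg ω) (X_le ω) geo_summable

theorem Y_summable {β₁ β₂ : ℝ} (h1 : log 5 ≤ β₁) (h2 : log 5 ≤ β₂) (ω : ℕ → Fin 4) :
    Summable fun n => hgt β₁ β₂ ω n * (((ω n : ℕ) : ℝ) / 4) :=
  Summable.of_nonneg_of_le (Y_nonneg β₁ β₂ ω) (Y_le h1 h2 ω) geo_summable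

theorem X_rec (ω : ℕ → Fin 4) : XX ω = cl (ω 0) / 4 + 1 / 5 * XX (sh ω) := by
  unfold XX
  rw [(X_summable ω).tsum_eq_zero_add, ← tsum_mul_left]
  congr 1
  · simp
  · refine tsum_congr (fun n => ?_)
    unfold sh
    rw [pow_succ]
    ring

theorem Y_rec {β₁ β₂ : ℝ} (h1 : log 5 ≤ β₁) (h2 : log 5 ≤ β₂) (ω : ℕ → Fin 4) :
    YY β₁ β₂ ω = ((ω 0 : ℕ) : ℝ) / 4 + bb β₁ β₂ (ω 0) * YY β₁ β₂ (sh ω) := by
  unfold YY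
  rw [(Y_summable h1 h2 ω).tsum_eq_zero_add, ← tsum_mul_left]
  congr 1
  · simp [hgt]
  · refine tsum_congr (fun n => ?_)
    rw [hgt_succ]
    unfold sh
    ring

theorem X_le_one (ω : ℕ → Fin 4) : XX ω ≤ 1 := by
  have h : XX ω ≤ ∑' n : ℕ, (1 / 5 : ℝ) ^ n * (3 / 4) :=
    (X_summable ω).tsum_le_tsum (X_le ω) geo_summable
  rw [geo_sum] at h
  linarith

theorem Y_le_one {β₁ β₂ : ℝ} (h1 : log 5 ≤ β₁) (h2 : log 5 ≤ β₂) (ω : ℕ → Fin 4) :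
    YY β₁ β₂ ω ≤ 1 := by
  have h : YY β₁ β₂ ω ≤ ∑' n : ℕ, (1 / 5 : ℝ) ^ n * (3 / 4) :=
    (Y_summable h1 h2 ω).tsum_le_tsum (Y_le h1 h2 ω) geo_summable
  rw [geo_sum] at h
  linarith

theorem rec1 : S_rec := by
  intro β₁ β₂ h1 h2
  refine ⟨fun j => ⟨bb_pos β₁ β₂ j, bb_le h1 h2 j⟩,
    fun ω n => ⟨hgt_pos β₁ β₂ ω n, hgt_le h1 h2 ω n, hgt_succ β₁ β₂ ω n⟩,
    fun ω => ⟨X_summable ω, Y_summable h1 h2 ω, X_rec ω, Y_rec h1 h2 ω, tsum_nonneg (X_nonneg ω),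
      X_le_one ω, tsum_nonneg (Y_nonneg β₁ β₂ ω), Y_le_one h1 h2 ω⟩⟩

end Pool.Agent.Q16.BS_REC
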