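import Pool.Agent.Q61.BS.Stm

/-!
# Project BS, job SEP
-/

set_option autoImplicit false

open MeasureTheory Set Filter Topology Real

noncomputable section

namespace Pool.Agent.Q16.BS_SEP

open Pool.Agent.Q61.BS

theorem dig_gap (a b : Fin 4) (h : a ≠ b) : 1 ≤ |((a : ℕ) : ℝ) - ((b : ℕ) : ℝ)| := by
  have h1 : ((a : ℕ) : ℤ) - ((b : ℕ) : ℤ) ≠ 0 := by
    intro h2
    apply h
    ext
    omega
  have h2 : 1 ≤ |((a : ℕ) : ℤ) - ((b : ℕ) : ℤ)| := Int.one_le_abs h1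
  have h3 : ((1 : ℤ) : ℝ) ≤ ((|((a : ℕ) : ℤ) - ((b : ℕ) : ℤ)| : ℤ) : ℝ) := by exact_mod_cast h2
  rw [Int.cast_abs] at h3
  push_cast at h3
  exact h3

theorem cl_gap (a b : Fin 4) (h : ¬ (a = 0 ↔ b = 0)) : 1 ≤ |cl a - cl b| := by
  unfold cl
  by_cases ha : a = 0
  · by_cases hb : b = 0
    · exact absurd (iff_of_true ha hb) h
    · rw [if_pos ha, if_neg hb]; norm_num
  · by_cases hb : b = 0
    · rw [if_neg ha, if_pos hb]; norm_num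
    · exact absurd (iff_of_false ha hb) h

theorem gap_aux (p q u v : ℝ) (hp : 1 ≤ |p - q|) (hu : 0 ≤ u) (hu' : u ≤ 1 / 5) (hv : 0 ≤ v)
    (hv' : v ≤ 1 / 5) : 1 / 20 ≤ |(p / 4 + u) - (q / 4 + v)| := by
  rcases le_abs.mp hp with h | h
  · exact le_abs.mpr (Or.inl (by linarith))
  · exact le_abs.mpr (Or.inr (by linarith))

theorem sep (h : S_rec) : S_sep := by
  intro β₁ β₂ h1 h2
  obtain ⟨hb, hh, hr⟩ := h β₁ β₂ h1 h2
  have hbY : ∀ ω : ℕ → Fin 4, 0 ≤ bb β₁ β₂ (ω 0) * YY β₁ β₂ (sh ω) ∧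
      bb β₁ β₂ (ω 0) * YY β₁ β₂ (sh ω) ≤ 1 / 5 := by
    intro ω
    obtain ⟨-, -, -, -, -, -, a1, a2⟩ := hr (sh ω)
    obtain ⟨c1, c2⟩ := hb (ω 0)
    refine ⟨mul_nonneg c1.le a1, ?_⟩
    calc bb β₁ β₂ (ω 0) * YY β₁ β₂ (sh ω) ≤ 1 / 5 * 1 :=
          mul_le_mul c2 a2 a1 (by norm_num)
      _ = 1 / 5 := by norm_num
  have hbX : ∀ ω : ℕ → Fin 4, 0 ≤ 1 / 5 * XX (sh ω) ∧ 1 / 5 * XX (sh ω) ≤ 1 / 5 := by
    intro ω
    obtain ⟨-, -, -, -, a1, a2, -, -⟩ := hr (sh ω)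
    constructor <;> linarith
  have hg1 : ∀ (ω : ℕ → Fin 4) (n : ℕ), hgt β₁ β₂ ω n ≤ 1 := by
    intro ω n
    exact (hh ω n).2.1.trans (pow_le_one₀ (by norm_num) (by norm_num))
  have hA0 : ∀ (n : ℕ) (ω ω' : ℕ → Fin 4),
      |YY β₁ β₂ ω - YY β₁ β₂ ω'| < 1 / 20 * hgt β₁ β₂ ω n → ω 0 = ω' 0 := by
    intro n ω ω' hlt
    by_contra hne
    obtain ⟨-, -, -, e1, -, -, -, -⟩ := hr ω
    obtain ⟨-, -, -, e2, -, -, -, -⟩ := hr ω'
    have h3 := gap_aux ((ω 0 : ℕ) : ℝ) ((ω' 0 : ℕ) : ℝ) _ _ (dig_gap _ _ hne) (hbY ω).1 (hbY ω).2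
      (hbY ω').1 (hbY ω').2
    rw [← e1, ← e2] at h3
    have h4 := hg1 ω n
    linarith
  have hB0 : ∀ (n : ℕ) (ω ω' : ℕ → Fin 4),
      |XX ω - XX ω'| < 1 / 20 * (1 / 5) ^ n → (ω 0 = 0 ↔ ω' 0 = 0) := by
    intro n ω ω' hlt
    by_contra hne
    obtain ⟨-, -, e1, -, -, -, -, -⟩ := hr ω
    obtain ⟨-, -, e2, -, -, -, -, -⟩ := hr ω'
    have h3 := gap_aux (cl (ω 0)) (cl (ω' 0)) _ _ (cl_gap _ _ hne) (hbX ω).1 (hbX ω).2
      (hbX ω').1 (hbX ω').2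
    rw [← e1, ← e2] at h3
    have h4 : ((1 : ℝ) / 5) ^ n ≤ 1 := pow_le_one₀ (by norm_num) (by norm_num)
    linarith
  have hA : ∀ (n : ℕ) (ω ω' : ℕ → Fin 4),
      |YY β₁ β₂ ω - YY β₁ β₂ ω'| < 1 / 20 * hgt β₁ β₂ ω n → ∀ k ≤ n, ω k = ω' k := by
    intro n
    induction n with
    | zero =>
      intro ω ω' hlt k hk
      have hk0 : k = 0 := by omega
      rw [hk0]
      exact hA0 0 ω ω' hlt
    | succ n ih =>
      intro ω ω' hlt k hk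
      have h0 := hA0 (n + 1) ω ω' hlt
      rcases Nat.eq_zero_or_pos k with hk0 | hk0
      · rw [hk0]; exact h0
      · obtain ⟨-, -, -, e1, -, -, -, -⟩ := hr ω
        obtain ⟨-, -, -, e2, -, -, -, -⟩ := hr ω'
        rw [(hh ω n).2.2, e1, e2, ← h0] at hlt
        have h4 : ((ω 0 : ℕ) : ℝ) / 4 + bb β₁ β₂ (ω 0) * YY β₁ β₂ (sh ω) -
            (((ω 0 : ℕ) : ℝ) / 4 + bb β₁ β₂ (ω 0) * YY β₁ β₂ (sh ω')) =
            bb β₁ β₂ (ω 0) * (YY β₁ β₂ (sh ω) - YY β₁ β₂ (sh ω')) := by ring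
        rw [h4, abs_mul, abs_of_pos (hb (ω 0)).1] at hlt
        have h5 : bb β₁ β₂ (ω 0) * |YY β₁ β₂ (sh ω) - YY β₁ β₂ (sh ω')| <
            bb β₁ β₂ (ω 0) * (1 / 20 * hgt β₁ β₂ (sh ω) n) := by linarith
        have h6 := lt_of_mul_lt_mul_left h5 (hb (ω 0)).1.le
        have h7 := ih (sh ω) (sh ω') h6 (k - 1) (by omega)
        unfold sh at h7
        rwa [Nat.sub_add_cancel hk0] at h7
  have hB : ∀ (n : ℕ) (ω ω' : ℕ → Fin 4),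
      |XX ω - XX ω'| < 1 / 20 * (1 / 5) ^ n → ∀ k ≤ n, (ω k = 0 ↔ ω' k = 0) := by
    intro n
    induction n with
    | zero =>
      intro ω ω' hlt k hk
      have hk0 : k = 0 := by omega
      rw [hk0]
      exact hB0 0 ω ω' hlt
    | succ n ih =>
      intro ω ω' hlt k hk
      have h0 := hB0 (n + 1) ω ω' hlt
      rcases Nat.eq_zero_or_pos k with hk0 | hk0
      · rw [hk0]; exact h0
      · obtain ⟨-, -, e1, -, -, -, -, -⟩ := hr ω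
        obtain ⟨-, -, e2, -, -, -, -, -⟩ := hr ω'
        have hc : cl (ω 0) = cl (ω' 0) := by
          unfold cl
          by_cases hz : ω 0 = 0
          · rw [if_pos hz, if_pos (h0.mp hz)]
          · rw [if_neg hz, if_neg (fun h' => hz (h0.mpr h'))]
        rw [e1, e2, ← hc] at hlt
        have h4 : cl (ω 0) / 4 + 1 / 5 * XX (sh ω) - (cl (ω 0) / 4 + 1 / 5 * XX (sh ω')) =
            1 / 5 * (XX (sh ω) - XX (sh ω')) := by ring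
        rw [h4, abs_mul, abs_of_pos (by norm_num : (0 : ℝ) < 1 / 5), pow_succ] at hlt
        have h6 : |XX (sh ω) - XX (sh ω')| < 1 / 20 * (1 / 5) ^ n := by linarith
        have h7 := ih (sh ω) (sh ω') h6 (k - 1) (by omega)
        unfold sh at h7
        rwa [Nat.sub_add_cancel hk0] at h7
  intro ω ω' n
  exact ⟨hA n ω ω', hB n ω ω'⟩

end Pool.Agent.Q16.BS_SEP
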