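import Pool.Agent.TH22.UF.Reverse
import Pool.Agent.TH22.UF.Half

/-!
# Braided fusion categories with unitary F-matrices
-/

set_option autoImplicit false
set_option linter.unusedSectionVars false
set_option linter.unusedVariables false

open CategoryTheory CategoryTheory.Limits MonoidalCategory
open Pool.Agent.TH22.UF

namespace Q16.BrUF

universe v u

section general

variable {D : Type u} [Category.{v} D] [Preadditive D] [Linear ℂ D] [MonoidalCategory D]
  [MonoidalPreadditive D] [MonoidalLinear ℂ D] [BraidedCategory D] {s : CStarTensorStructure D}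

open CStarTensorStructure

/-- The half-braiding given by a braiding. -/
def brHalf (X : D) : HalfBr X where
  c Y := β_ X Y
  nat f := BraidedCategory.braiding_naturality_right X f
  hex Y Z := BraidedCategory.braiding_tensor_right_hom X Y Z

/-- The braiding is unitary, in a C*-tensor category with duals in which all objects decompose
into the members of a finite list of simple objects. -/
theorem star_braiding {r : ℕ} {T : Fin r → D} (hT : s.FinDec T) (hB : s.Bdd)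
    (hTs : ∀ a, Scal (T a)) (h1 : Scal (𝟙_ D))
    (hdual : ∀ Y : D, ∃ Y' : D, Nonempty (ExactPairing Y Y')) (X Y : D) :
    s.star (β_ X Y).hom = (β_ X Y).inv := by
  obtain ⟨n, b, ι, hι⟩ := hT X
  obtain ⟨Y', ⟨hY'⟩⟩ := hdual Y
  have hk : ∀ k, s.star (β_ (T (b k)) Y).hom = (β_ (T (b k)) Y).inv := fun k =>
    star_halfBr (Y' := Y') hT hB (hTs (b k)) h1 (brHalf (T (b k)))
  have e1 : (β_ X Y).hom = ∑ k, (s.star (ι k) ▷ Y) ≫ (β_ (T (b k)) Y).hom ≫ (Y ◁ ι k) := by
    calc (β_ X Y).hom = ((𝟙 X) ▷ Y) ≫ (β_ X Y).hom := by simp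
      _ = ∑ k, ((s.star (ι k) ≫ ι k) ▷ Y) ≫ (β_ X Y).hom := by
        rw [← hι, sum_whiskerRight, Preadditive.sum_comp]
      _ = _ := by
        refine Finset.sum_congr rfl fun k _ => ?_
        rw [comp_whiskerRight, Category.assoc, BraidedCategory.braiding_naturality_left]
  rw [e1, s.star_sum]
  calc (∑ k, s.star ((s.star (ι k) ▷ Y) ≫ (β_ (T (b k)) Y).hom ≫ (Y ◁ ι k)))
      = ∑ k, (β_ X Y).inv ≫ ((s.star (ι k) ≫ ι k) ▷ Y) := by
        refine Finset.sum_congr rfl fun k _ => ?_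
        rw [s.star_comp, s.star_comp, s.star_whiskerLeft, s.star_whiskerRight, s.star_star, hk,
          BraidedCategory.braiding_inv_naturality_right, Category.assoc, ← comp_whiskerRight]
    _ = (β_ X Y).inv := by
      rw [← Preadditive.comp_sum, ← sum_whiskerRight, hι]
      simp

end general

section hobj

variable {C : Type u} [Category.{v} C] [Preadditive C] [Linear ℂ C] [MonoidalCategory C]
  [MonoidalPreadditive C] [MonoidalLinear ℂ C]

variable {r : ℕ} {S : Fin r → C} {𝒟 : UData S}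

instance : MonoidalPreadditive (HObj 𝒟) where
  whiskerLeft_zero {X Y Z} := MonoidalPreadditive.whiskerLeft_zero (C := C)
  zero_whiskerRight {X Y Z} := MonoidalPreadditive.zero_whiskerRight (C := C)
  whiskerLeft_add {X Y Z} f g := MonoidalPreadditive.whiskerLeft_add (C := C) f g
  add_whiskerRight {X Y Z} f g := MonoidalPreadditive.add_whiskerRight (C := C) f g

instance : MonoidalLinear ℂ (HObj 𝒟) where
  whiskerLeft_smul X {Y Z} z f := MonoidalLinear.whiskerLeft_smul (C := C) X.X z f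
  smul_whiskerRight z {Y Z} f X := MonoidalLinear.smul_whiskerRight (C := C) z f X.X

section braided

variable [BraidedCategory C]

noncomputable instance : BraidedCategory (HObj 𝒟) where
  braiding X Y := mkIso (β_ X.X Y.X)
  braiding_naturality_right X {Y Z} f :=
    BraidedCategory.braiding_naturality_right (C := C) X.X f
  braiding_naturality_left {X Y} f Z :=
    BraidedCategory.braiding_naturality_left (C := C) f Z.X
  hexagon_forward X Y Z := BraidedCategory.hexagon_forward (C := C) X.X Y.X Z.X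
  hexagon_reverse X Y Z := BraidedCategory.hexagon_reverse (C := C) X.X Y.X Z.X

noncomputable instance : (forgetF (𝒟 := 𝒟)).Braided where
  braided X Y := by
    change 𝟙 (X.X ⊗ Y.X) ≫ (β_ X.X Y.X).hom = (β_ X.X Y.X).hom ≫ 𝟙 (Y.X ⊗ X.X)
    simp

end braided

/-- The members of the list as decomposed objects. -/
noncomputable def TObj (𝒟 : UData S) (a : Fin r) : HObj 𝒟 := ⟨S a, isoStr a (Iso.refl _)⟩

open CStarTensorStructure

lemma star_inc (Y : HObj 𝒟) (a : Fin r) (t : Y.str.J a) :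
    (cstar (𝒟 := 𝒟)).star (X := TObj 𝒟 a) (Y := Y) (Y.str.inc a t) = Y.str.prj a t := by
  have h := adj_prj_inc 𝒟.B (isoStr a (Iso.refl (S a))) Y.str a ⟨rfl⟩ t
  have e1 : (isoStr a (Iso.refl (S a))).prj a ⟨rfl⟩ = 𝟙 (S a) := by simp [isoStr]
  have e2 : (isoStr a (Iso.refl (S a))).inc a ⟨rfl⟩ = 𝟙 (S a) := by simp [isoStr]
  rw [e1, e2, Category.id_comp, Category.comp_id] at h
  exact h

lemma finDec (𝒟 : UData S) : (cstar (𝒟 := 𝒟)).FinDec (TObj 𝒟) := by
  intro Y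
  let e : (Σ a, Y.str.J a) ≃ Fin (Fintype.card (Σ a, Y.str.J a)) := Fintype.equivFin _
  refine ⟨_, fun k => (e.symm k).1, fun k => Y.str.inc (e.symm k).1 (e.symm k).2, ?_⟩
  have h1 : ∀ k, (cstar (𝒟 := 𝒟)).star (X := TObj 𝒟 (e.symm k).1) (Y := Y)
      (Y.str.inc (e.symm k).1 (e.symm k).2) = Y.str.prj (e.symm k).1 (e.symm k).2 :=
    fun k => star_inc Y _ _
  have h2 : ∑ a, ∑ t, Y.str.prj a t ≫ Y.str.inc a t = 𝟙 Y.X := Y.str.total
  have h3 : ∑ k, (Y.str.prj (e.symm k).1 (e.symm k).2 ≫ Y.str.inc (e.symm k).1 (e.symm k).2 :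
      Y.X ⟶ Y.X) = 𝟙 Y.X := by
    rw [← h2, e.symm.sum_comp (fun x : (Σ a, Y.str.J a) => (Y.str.prj x.1 x.2 ≫
      Y.str.inc x.1 x.2 : Y.X ⟶ Y.X)), Fintype.sum_sigma]
  simp_rw [h1]
  exact h3

section psd

open scoped ComplexOrder MatrixOrder Matrix.Norms.L2Operator

open scoped Classical in
lemma exists_compl {n m : Type*} [Fintype n] [Fintype m] (M : Matrix n m ℂ) :
    ∃ K : ℝ, ∀ K' : ℝ, K ≤ K' → ∃ A : Matrix n n ℂ,
      (K' : ℂ) • (1 : Matrix n n ℂ) = M * M.conjTranspose + A * A.conjTranspose := by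
  have hsa : IsSelfAdjoint (M * M.conjTranspose) := by
    have : (M * M.conjTranspose).IsHermitian := Matrix.isHermitian_mul_conjTranspose_self M
    exact this
  refine ⟨‖M * M.conjTranspose‖, fun K' hK' => ?_⟩
  have h1 : M * M.conjTranspose ≤ algebraMap ℝ (Matrix n n ℂ) K' :=
    hsa.le_algebraMap_norm_self.trans (algebraMap_mono _ hK')
  have h2 : 0 ≤ algebraMap ℝ (Matrix n n ℂ) K' - M * M.conjTranspose := sub_nonneg.mpr h1
  obtain ⟨A, hA⟩ := CStarAlgebra.nonneg_iff_eq_star_mul_self.mp h2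
  refine ⟨A.conjTranspose, ?_⟩
  rw [Matrix.conjTranspose_conjTranspose]
  have h3 : A.conjTranspose * A = star A * A := rfl
  rw [h3, ← hA]
  have h4 : (K' : ℂ) • (1 : Matrix n n ℂ) = algebraMap ℝ (Matrix n n ℂ) K' := by
    rw [Algebra.algebraMap_eq_smul_one]
    ext i j
    simp
  rw [h4]
  abel

end psd

lemma bdd (𝒟 : UData S) : (cstar (𝒟 := 𝒟)).Bdd := by
  classical
  intro Z Z' f₀
  obtain ⟨f, hf⟩ : ∃ f : Z.X ⟶ Z'.X, f = f₀ := ⟨f₀, rfl⟩
  have h := fun a => exists_compl (mat 𝒟.B Z.str Z'.str f a)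
  choose K hK using h
  obtain ⟨M, hM⟩ : ∃ M : ℝ, ∀ a, K a ≤ M := by
    obtain ⟨M, hM⟩ := (Set.finite_range K).bddAbove
    exact ⟨M, fun a => hM ⟨a, rfl⟩⟩
  choose A hA using fun a => hK a M (hM a)
  refine ⟨M, (ofMat Z.str Z.str A : Z.X ⟶ Z.X), ?_⟩
  rw [← hf]
  change (M : ℂ) • 𝟙 Z.X = f ≫ adj 𝒟.B Z.str Z'.str f +
    ofMat Z.str Z.str A ≫ adj 𝒟.B Z.str Z.str (ofMat Z.str Z.str A)
  apply mat_injective 𝒟.B Z.str Z.str
  funext a
  rw [mat_smul, mat_add, mat_comp 𝒟.B Z.str Z'.str Z.str, mat_comp 𝒟.B Z.str Z.str Z.str, mat_adj,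
    mat_adj, mat_ofMat, mat_id]
  convert hA a

lemma scal_TObj (𝒟 : UData S) (a : Fin r) : Scal (TObj 𝒟 a) where
  scalar f := ⟨𝒟.B.coef a f, 𝒟.B.coef_smul a f⟩
  ne h := by
    have h1 : (𝟙 (S a)) = 0 := h
    have h2 := 𝒟.B.coef_id a
    rw [h1, map_zero] at h2
    exact zero_ne_one h2

lemma scal_unit (𝒟 : UData S) : Scal (𝟙_ (HObj 𝒟)) where
  scalar f := by
    have h := 𝒟.B.coef_smul 𝒟.a₀ (𝒟.u.hom ≫ (show (𝟙_ C) ⟶ (𝟙_ C) from f) ≫ 𝒟.u.inv)
    refine ⟨𝒟.B.coef 𝒟.a₀ (𝒟.u.hom ≫ (show (𝟙_ C) ⟶ (𝟙_ C) from f) ≫ 𝒟.u.inv), ?_⟩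
    have h2 : (show (𝟙_ C) ⟶ (𝟙_ C) from f) = 𝒟.u.inv ≫ (𝒟.u.hom ≫
      (show (𝟙_ C) ⟶ (𝟙_ C) from f) ≫ 𝒟.u.inv) ≫ 𝒟.u.hom := by simp
    change (show (𝟙_ C) ⟶ (𝟙_ C) from f) = _ • 𝟙 (𝟙_ C)
    conv_lhs => rw [h2, h]
    simp
  ne h := by
    have h1 : (𝟙 (𝟙_ C)) = 0 := h
    have h2 := 𝒟.B.coef_id 𝒟.a₀
    have h3 : 𝟙 (S 𝒟.a₀) = 𝒟.u.hom ≫ 𝟙 (𝟙_ C) ≫ 𝒟.u.inv := by simp
    rw [h3, h1] at h2
    simp at h2

lemma exists_dual (𝒟 : UData S) (hstr : ∀ X : C, Nonempty (HStr S X)) [RigidCategory C]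
    (Y : HObj 𝒟) : ∃ Y' : HObj 𝒟, Nonempty (ExactPairing Y Y') := by
  refine ⟨⟨HasRightDual.rightDual Y.X, (hstr _).some⟩, ⟨?_⟩⟩
  have E : ExactPairing Y.X (HasRightDual.rightDual Y.X) := inferInstance
  exact
    { coevaluation' := E.coevaluation'
      evaluation' := E.evaluation'
      coevaluation_evaluation' := E.coevaluation_evaluation'
      evaluation_coevaluation' := E.evaluation_coevaluation' }

end hobj

section final

variable {C : Type u} [Category.{v} C] [Abelian C] [Linear ℂ C] [HasFiniteBiproducts C]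
  [MonoidalCategory C] [MonoidalPreadditive C] [MonoidalLinear ℂ C] [RigidCategory C]
  [BraidedCategory C]

variable {r : ℕ} {S : Fin r → C}

/-- The braiding matrices of the gauge `g` are diagonal: `R^{ab}_c` maps each basis vector of
`V^{ab}_c` to a scalar multiple of a basis vector of `V^{ba}_c`, under a matching `σ` of the two
bases. -/
def DiagonalR (g : Gauge S) : Prop :=
  ∀ a b c : Fin r, ∃ (σ : Fin (g.N a b c) ≃ Fin (g.N b a c)) (z : Fin (g.N a b c) → ℂ),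
    ∀ i, g.basis a b c i ≫ (β_ (S a) (S b)).hom = z i • g.basis b a c (σ i)

theorem isBraidedUnitary_of_unitaryF (hC : IsFusionCategory C) (hS : IsSimpleList S)
    (g : Gauge S) (hg : g.UnitaryF) : IsBraidedUnitary C := by
  obtain ⟨𝒟⟩ := exists_udata hC hS g hg
  have hstr := exists_hstr hS 𝒟.B hC.semisimple
  have : (forgetF (𝒟 := 𝒟)).EssSurj := ⟨fun X => ⟨⟨X, (hstr X).some⟩, ⟨Iso.refl _⟩⟩⟩
  refine ⟨HObj 𝒟, inferInstance, inferInstance, inferInstance, inferInstance, inferInstance,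
    cstar, forgetF, inferInstance, inferInstance, inferInstance, { }, ?_⟩
  intro X Y
  exact star_braiding (finDec 𝒟) (bdd 𝒟) (scal_TObj 𝒟) (scal_unit 𝒟) (exists_dual 𝒟 hstr) X Y

end final

end Q16.BrUF
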