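import Mathlib
import Pool.Agent.Q49.MR2.Stm

/-!
# Project MR2, job EXW
-/

namespace Q16.MR2_EXW

open Q49.MR Q49.MR2

/-- The explicit solution is `w = D φ1 + φ2 + D1 φ3`. -/
theorem exw : S2_EXW := by
  intro K L _ _ _ _ _ σ hc θ D hθ hD hD1
  have h2 : (2 : L) = 0 := by
    have := congrArg (algebraMap K L) hc.two
    rwa [map_ofNat, map_zero] at this
  have hD2 : σ D = 1 - D := by linear_combination hD1
  refine ⟨D * (σ θ + σ (σ θ)) + (σ (σ θ) + σ (σ (σ θ))) + (1 - D) * (σ (σ (σ θ)) + θ + 1), ?_, ?_⟩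
  · simp only [map_add, map_sub, map_mul, map_one, hD2, hθ]
    ring_nf
    linear_combination 2 * h2
  · simp only [map_add, map_sub, map_mul, map_one, hD2, hθ]
    ring_nf
    linear_combination (1 + D * σ θ - D * σ (σ (σ θ)) + 2 * σ (σ (σ θ)) + σ (σ θ) + θ) * h2

end Q16.MR2_EXW
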