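import Mathlib
import Pool.Agent.Q82.QC.Stm

/-!
# Project QC, job CD
-/

set_option autoImplicit false

open MeasureTheory Filter Topology Real InnerProductSpace Laplacian

namespace Pool.Agent.Q82.QC

section

variable {F : Type} [NormedAddCommGroup F] [NormedSpace ℝ F]

theorem cd_int (L : E → F) (hL : Continuous L) (g : E → ℝ) (hg : Continuous g)
    (hc : HasCompactSupport g) (x : E) : Integrable (fun y => g y • L (x - y)) := by
  refine Continuous.integrable_of_hasCompactSupport ?_ ?_
  · exact hg.smul (hL.comp (continuous_const.sub continuous_id))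
  · exact hc.smul_right

theorem cd_fderiv (L : E → F) (hL : ContDiff ℝ 1 L) (g : E → ℝ) (hg : Continuous g)
    (hc : HasCompactSupport g) (x₀ : E) :
    HasFDerivAt (fun x => ∫ y, g y • L (x - y)) (∫ y, g y • fderiv ℝ L (x₀ - y)) x₀ := by
  have hL' : Continuous (fderiv ℝ L) := hL.continuous_fderiv one_ne_zero
  have hK : IsCompact ((fun q : E × E => q.1 - q.2) '' (Metric.closedBall x₀ 1 ×ˢ tsupport g)) :=
    ((isCompact_closedBall x₀ 1).prod hc.isCompact).image (continuous_fst.sub continuous_snd)
  obtain ⟨C, hC⟩ := hK.exists_bound_of_continuousOn hL'.continuousOn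
  refine hasFDerivAt_integral_of_dominated_of_fderiv_le (bound := fun y => |g y| * C)
    (s := Metric.ball x₀ 1) (F' := fun x y => g y • fderiv ℝ L (x - y))
    (Metric.ball_mem_nhds x₀ one_pos) ?_ (cd_int L hL.continuous g hg hc x₀) ?_ ?_ ?_ ?_
  · exact Eventually.of_forall fun x => (cd_int L hL.continuous g hg hc x).aestronglyMeasurable
  · exact (cd_int (fderiv ℝ L) hL' g hg hc x₀).aestronglyMeasurable
  · refine Eventually.of_forall fun y x hx => ?_
    rw [norm_smul, Real.norm_eq_abs]
    by_cases hy : y ∈ tsupport g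
    · refine mul_le_mul_of_nonneg_left (hC _ ⟨(x, y), ⟨?_, hy⟩, rfl⟩) (abs_nonneg _)
      exact Metric.ball_subset_closedBall hx
    · have h0 : g y = 0 := image_eq_zero_of_notMem_tsupport hy
      rw [h0, abs_zero, zero_mul, zero_mul]
  · have h1 : Integrable g := hg.integrable_of_hasCompactSupport hc
    exact h1.abs.mul_const C
  · refine Eventually.of_forall fun y x _ => ?_
    have h1 : HasFDerivAt (fun x : E => L (x - y)) (fderiv ℝ L (x - y)) x := by
      have h2 := (hL.differentiable one_ne_zero (x - y)).hasFDerivAt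
      have h3 : HasFDerivAt (fun x : E => x - y) (ContinuousLinearMap.id ℝ E) x :=
        (hasFDerivAt_id x).sub_const y
      exact h2.comp x h3
    exact h1.const_smul (g y)

theorem cd_contDiff (n : ℕ) : ∀ {F : Type} [NormedAddCommGroup F] [NormedSpace ℝ F] (L : E → F),
    (∀ n : ℕ, ContDiff ℝ n L) → ∀ g : E → ℝ, Continuous g → HasCompactSupport g →
    ContDiff ℝ n (fun x => ∫ y, g y • L (x - y)) := by
  induction n with
  | zero =>
    intro F _ _ L hL g hg hc
    rw [Nat.cast_zero, contDiff_zero]
    exact continuous_iff_continuousAt.2 fun x =>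
      (cd_fderiv L (by exact_mod_cast hL 1) g hg hc x).continuousAt
  | succ n ih =>
    intro F _ _ L hL g hg hc
    have h1 : fderiv ℝ (fun x => ∫ y, g y • L (x - y)) = fun x => ∫ y, g y • fderiv ℝ L (x - y) := by
      funext x
      exact (cd_fderiv L (by exact_mod_cast hL 1) g hg hc x).fderiv
    rw [Nat.cast_succ, contDiff_succ_iff_fderiv]
    refine ⟨fun x => (cd_fderiv L (by exact_mod_cast hL 1) g hg hc x).differentiableAt,
      by simp, ?_⟩
    rw [h1]
    refine ih (fderiv ℝ L) (fun k => ?_) g hg hc
    exact (hL (k + 1)).fderiv_right (by exact_mod_cast le_rfl)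

theorem cd_iter (L : E → F) (hL : ∀ n : ℕ, ContDiff ℝ n L) (g : E → ℝ) (hg : Continuous g)
    (hc : HasCompactSupport g) (m : ℕ) :
    iteratedFDeriv ℝ m (fun x => ∫ y, g y • L (x - y)) =
      fun x => ∫ y, g y • iteratedFDeriv ℝ m L (x - y) := by
  induction m with
  | zero =>
    funext x
    rw [iteratedFDeriv_zero_eq_comp, Function.comp_apply]
    have h := (continuousMultilinearCurryFin0 ℝ E F).symm.toContinuousLinearEquiv.integral_comp_comm
      (μ := (volume : Measure E)) (fun y => g y • L (x - y))
    refine Eq.trans ?_ (h.symm.trans ?_)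
    · rfl
    · refine integral_congr_ae (Eventually.of_forall fun y => ?_)
      simp only [iteratedFDeriv_zero_eq_comp, Function.comp_apply]
      exact map_smul _ _ _
  | succ m ih =>
    funext x
    have hm : ∀ n : ℕ, ContDiff ℝ n (iteratedFDeriv ℝ m L) := fun n =>
      (hL (n + m)).iteratedFDeriv_right (by exact_mod_cast le_rfl)
    rw [iteratedFDeriv_succ_eq_comp_left, Function.comp_apply, ih,
      (cd_fderiv (iteratedFDeriv ℝ m L) (by exact_mod_cast hm 1) g hg hc x).fderiv]
    have h := ContinuousLinearEquiv.integral_comp_comm (𝕜 := ℝ)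
      (E := E →L[ℝ] E [×m]→L[ℝ] F) (F := E [×(m + 1)]→L[ℝ] F)
      (continuousMultilinearCurryLeftEquiv ℝ (fun _ : Fin (m + 1) => E)
        F).symm.toContinuousLinearEquiv
      (μ := (volume : Measure E)) (fun y => g y • fderiv ℝ (iteratedFDeriv ℝ m L) (x - y))
    refine Eq.trans ?_ (h.symm.trans ?_)
    · rfl
    · refine integral_congr_ae (Eventually.of_forall fun y => ?_)
      simp only [iteratedFDeriv_succ_eq_comp_left, Function.comp_apply]
      exact map_smul _ _ _

end

theorem cd : S_CD := by
  intro L g hL hg hc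
  have h0 : (fun x => ∫ y, L (x - y) * g y) = fun x => ∫ y, g y • L (x - y) := by
    funext x
    refine integral_congr_ae (Eventually.of_forall fun y => ?_)
    simp only [smul_eq_mul, mul_comm]
  rw [h0]
  exact ⟨fun n => cd_contDiff n L hL g hg hc, fun m x => by rw [cd_iter L hL g hg hc m]⟩

end Pool.Agent.Q82.QC
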