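import Mathlib
import Pool.Agent.Q82.QC.Stm

/-!
# Project QC, job GRO
-/

set_option autoImplicit false

open MeasureTheory Filter Topology Real InnerProductSpace Laplacian

namespace Pool.Agent.Q82.QC

theorem gro_pp {x : E} (hx : x ∈ Om) : 8 ≤ ‖x - pp‖ := by
  have h1 : |(x - pp) 0| ≤ ‖x - pp‖ := by
    have := PiLp.norm_apply_le (x - pp) 0
    rwa [Real.norm_eq_abs] at this
  have h2 : (x - pp) 0 = x 0 - 10 := by
    simp [pp]
  rw [h2] at h1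
  have h3 := hx.2
  have h4 : |x 0 - 10| = 10 - x 0 := by
    rw [abs_of_neg (by linarith)]
    ring
  linarith

theorem gro_pp' {x : E} (hx : x 0 ≠ 10) : 0 < ‖x - pp‖ := by
  have h : x - pp ≠ 0 := by
    intro h
    have h1 : (x - pp) 0 = 0 := by rw [h]; rfl
    have h2 : (x - pp) 0 = x 0 - 10 := by
      simp [pp]
    rw [h2] at h1
    exact hx (by linarith)
  exact norm_pos_iff.2 h

theorem gro_ep {A : Finset E} (hA : GoodA A) (β : ℝ) {a : E} (ha : a ∈ A) : 0 < ep A β a := by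
  have h1 : 0 < ‖a - pp‖ := gro_pp' (by rw [hA a ha]; norm_num)
  have h2 : 0 < HH A a := by
    refine Finset.prod_pos fun b hb => ?_
    have h3 : a - b ≠ 0 := sub_ne_zero.2 (Finset.ne_of_mem_erase hb).symm
    exact pow_pos (div_pos h1 (norm_pos_iff.2 h3)) 2
  exact div_pos (mul_pos (Real.exp_pos _) h2) two_pos

theorem gro_phi {x : E} (hx : x ∈ Om) : -(4 / 3) ≤ phi x := by
  have h1 : phi x + 4 / 3 = (x 0 + 1) ^ 2 * (2 - x 0) / 3 := by
    unfold phi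
    ring
  have h2 : 0 ≤ (x 0 + 1) ^ 2 * (2 - x 0) / 3 := by
    have := hx.2
    have h3 : 0 ≤ 2 - x 0 := by linarith
    positivity
  linarith

theorem gro (h1 : S_WP) : S_GRO := by
  intro A hA β hβ
  refine ⟨Real.exp (16 / 3 * β) * ∏ a ∈ A, (ep A β a ^ 2 + (1 + ‖a - pp‖) ^ 2) ^ 4, fun x hx => ?_⟩
  have hx8 := gro_pp hx
  have hx0 : 0 < ‖x - pp‖ := by linarith
  have hpos : ∀ a ∈ A, 0 < ep A β a ^ 2 + ‖x - a‖ ^ 2 := fun a ha =>
    add_pos_of_pos_of_nonneg (pow_pos (gro_ep hA β ha) 2) (sq_nonneg _)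
  rw [Real.exp_neg, h1 A hA β x hx, mul_inv, inv_div, ← Finset.prod_inv_distrib]
  have h2 : ‖x - pp‖ ^ 8 / Real.exp (4 * β * phi x) ≤ Real.exp (16 / 3 * β) * ‖x - pp‖ ^ 8 := by
    rw [div_eq_mul_inv, ← Real.exp_neg, mul_comm]
    refine mul_le_mul_of_nonneg_right (Real.exp_le_exp.2 ?_) (by positivity)
    have h3 := gro_phi hx
    nlinarith
  have h3 : ∏ a ∈ A, ((‖x - pp‖ ^ 2 / (ep A β a ^ 2 + ‖x - a‖ ^ 2)) ^ 4)⁻¹ ≤
      ∏ a ∈ A, (ep A β a ^ 2 + (1 + ‖a - pp‖) ^ 2) ^ 4 := by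
    refine Finset.prod_le_prod (fun a ha => ?_) fun a ha => ?_
    · have := hpos a ha
      positivity
    · have h4 := hpos a ha
      rw [← inv_pow, inv_div]
      refine pow_le_pow_left₀ (by positivity) ?_ 4
      rw [div_le_iff₀ (by positivity)]
      have h5 : ‖x - a‖ ≤ (1 + ‖a - pp‖) * ‖x - pp‖ := by
        have h6 : ‖x - a‖ ≤ ‖x - pp‖ + ‖a - pp‖ := by
          have : x - a = (x - pp) - (a - pp) := by abel
          rw [this]
          exact norm_sub_le _ _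
        have h7 : 0 ≤ ‖a - pp‖ := norm_nonneg _
        nlinarith
      have h6 : ‖x - a‖ ^ 2 ≤ ((1 + ‖a - pp‖) * ‖x - pp‖) ^ 2 := pow_le_pow_left₀ (norm_nonneg _) h5 2
      have h7 : ep A β a ^ 2 ≤ ep A β a ^ 2 * ‖x - pp‖ ^ 2 := by
        have h8 : 1 ≤ ‖x - pp‖ ^ 2 := by nlinarith
        nlinarith [sq_nonneg (ep A β a)]
      nlinarith
  calc ‖x - pp‖ ^ 8 / Real.exp (4 * β * phi x) *
      ∏ a ∈ A, ((‖x - pp‖ ^ 2 / (ep A β a ^ 2 + ‖x - a‖ ^ 2)) ^ 4)⁻¹ ≤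
      (Real.exp (16 / 3 * β) * ‖x - pp‖ ^ 8) * ∏ a ∈ A, (ep A β a ^ 2 + (1 + ‖a - pp‖) ^ 2) ^ 4 :=
        mul_le_mul h2 h3 (Finset.prod_nonneg fun a ha => by have := hpos a ha; positivity)
          (by positivity)
    _ = _ := by ring

end Pool.Agent.Q82.QC
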