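import Mathlib
import Pool.Agent.Q82.QC.Stm

/-!
# Project QC, job KH
-/

set_option autoImplicit false

open MeasureTheory Filter Topology Real InnerProductSpace Laplacian

namespace Pool.Agent.Q82.QC

theorem kh_aux (h2 : S_SM) {C3 C4 : ℝ} (hC3 : 0 < C3) (hC4 : 0 < C4)
    (k3 : ∀ (e : ℝ) (z : E), z ≠ 0 → ‖iteratedFDeriv ℝ 3 (lg e) z‖ ≤ C3 / ‖z‖ ^ 3)
    (k4 : ∀ (e : ℝ) (z : E), z ≠ 0 → ‖iteratedFDeriv ℝ 4 (lg e) z‖ ≤ C4 / ‖z‖ ^ 4)
    {α : ℝ} (ha0 : 0 ≤ α) (ha1 : α < 1) (e : ℝ) {z w : E} (hz : z ≠ 0) (hzw : ‖z‖ ≤ ‖w‖) :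
    ‖iteratedFDeriv ℝ 3 (lg e) z - iteratedFDeriv ℝ 3 (lg e) w‖ ≤
      (16 * C4 + 4 * C3) * ‖z - w‖ ^ α * ‖z‖ ^ (-3 - α) := by
  have hr : 0 < ‖z‖ := norm_pos_iff.2 hz
  have hw : w ≠ 0 := norm_pos_iff.1 (lt_of_lt_of_le hr hzw)
  set r := ‖z‖ with hrdef
  set d := ‖z - w‖ with hd
  have hd0 : 0 ≤ d := norm_nonneg _
  have hP : 0 ≤ d ^ α * r ^ (-3 - α) := mul_nonneg (Real.rpow_nonneg hd0 _) (Real.rpow_nonneg hr.le _)
  rcases le_or_gt d (r / 2) with hcase | hcase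
  · have hball : ∀ t ∈ Metric.closedBall z (r / 2), r / 2 ≤ ‖t‖ := by
      intro t ht
      rw [Metric.mem_closedBall, dist_eq_norm] at ht
      have h3 : ‖z‖ ≤ ‖t‖ + ‖t - z‖ := by
        have h4 : z = t - (t - z) := by abel
        calc ‖z‖ = ‖t - (t - z)‖ := by rw [← h4]
          _ ≤ _ := norm_sub_le _ _
      rw [← hrdef] at h3
      linarith
    have hmv := Convex.norm_image_sub_le_of_norm_fderiv_le (𝕜 := ℝ)
      (f := iteratedFDeriv ℝ 3 (lg e)) (C := C4 / (r / 2) ^ 4) (s := Metric.closedBall z (r / 2))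
      (x := w) (y := z)
      (fun t ht => by
        have h3 := hball t ht
        have h4 : 0 < ‖t‖ := by linarith
        have h5 : ContDiffAt ℝ ((4 : ℕ)) (lg e) t :=
          h2 e t (add_pos_of_nonneg_of_pos (sq_nonneg _) (pow_pos h4 2)) 4
        have h6 : ContDiffAt ℝ ((1 : ℕ)) (iteratedFDeriv ℝ 3 (lg e)) t :=
          h5.iteratedFDeriv_right (by norm_num)
        exact h6.differentiableAt (by norm_num))
      (fun t ht => by
        have h3 := hball t ht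
        have h4 : 0 < ‖t‖ := by linarith
        rw [norm_fderiv_iteratedFDeriv]
        refine (k4 e t (norm_pos_iff.1 h4)).trans ?_
        exact div_le_div_of_nonneg_left hC4.le (by positivity) (pow_le_pow_left₀ (by positivity) h3 4))
      (convex_closedBall z (r / 2)) (by
        rw [Metric.mem_closedBall, dist_eq_norm, norm_sub_rev]
        exact hcase) (Metric.mem_closedBall_self (by positivity))
    rw [← hd] at hmv
    refine hmv.trans ?_
    have h3 : C4 / (r / 2) ^ 4 * d ≤ 16 * C4 * (d ^ α * r ^ (-3 - α)) := by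
      have h4 : d = d ^ α * d ^ (1 - α) := by
        rw [← Real.rpow_add_of_nonneg hd0 ha0 (by linarith)]
        norm_num
      have h5 : d ^ (1 - α) ≤ r ^ (1 - α) :=
        Real.rpow_le_rpow hd0 (by linarith) (by linarith)
      have h6 : r ^ (1 - α) * (r ^ 4)⁻¹ = r ^ (-3 - α) := by
        rw [← Real.rpow_natCast r 4, ← Real.rpow_neg hr.le, ← Real.rpow_add hr]
        congr 1
        norm_num
        ring
      have h7 : C4 / (r / 2) ^ 4 = 16 * C4 * (r ^ 4)⁻¹ := by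
        field_simp
        ring
      rw [h7]
      calc 16 * C4 * (r ^ 4)⁻¹ * d = 16 * C4 * (r ^ 4)⁻¹ * (d ^ α * d ^ (1 - α)) := by rw [← h4]
        _ ≤ 16 * C4 * (r ^ 4)⁻¹ * (d ^ α * r ^ (1 - α)) := by
          refine mul_le_mul_of_nonneg_left (mul_le_mul_of_nonneg_left h5 (Real.rpow_nonneg hd0 _))
            (by positivity)
        _ = 16 * C4 * (d ^ α * (r ^ (1 - α) * (r ^ 4)⁻¹)) := by ring
        _ = _ := by rw [h6]
    have h9 := mul_le_mul_of_nonneg_right (show 16 * C4 ≤ 16 * C4 + 4 * C3 by linarith) hP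
    have h10 : (16 * C4 + 4 * C3) * (d ^ α * r ^ (-3 - α)) =
      (16 * C4 + 4 * C3) * d ^ α * r ^ (-3 - α) := by ring
    linarith
  · have hrw : 0 < ‖w‖ := norm_pos_iff.2 hw
    have h3 : ‖iteratedFDeriv ℝ 3 (lg e) z - iteratedFDeriv ℝ 3 (lg e) w‖ ≤ 2 * C3 / r ^ 3 := by
      refine (norm_sub_le _ _).trans ?_
      have h4 := k3 e z hz
      have h5 := (k3 e w hw).trans (div_le_div_of_nonneg_left hC3.le (by positivity)
        (pow_le_pow_left₀ hr.le hzw 3))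
      rw [← hrdef] at h4
      have h6 : 2 * C3 / r ^ 3 = C3 / r ^ 3 + C3 / r ^ 3 := by ring
      linarith
    refine h3.trans ?_
    have h4 : 1 ≤ (2 * d / r) ^ α := by
      refine Real.one_le_rpow ?_ ha0
      rw [le_div_iff₀ hr]
      linarith
    have h5 : (2 * d / r) ^ α = 2 ^ α * d ^ α * r ^ (-α) := by
      rw [Real.div_rpow (by positivity) hr.le, Real.mul_rpow (by norm_num) hd0, Real.rpow_neg hr.le]
      rfl
    have h6 : (2 : ℝ) ^ α ≤ 2 := by
      calc (2 : ℝ) ^ α ≤ 2 ^ (1 : ℝ) := Real.rpow_le_rpow_of_exponent_le (by norm_num) ha1.le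
        _ = 2 := Real.rpow_one _
    have h7 : (r ^ 3)⁻¹ * r ^ (-α) = r ^ (-3 - α) := by
      rw [← Real.rpow_natCast r 3, ← Real.rpow_neg hr.le, ← Real.rpow_add hr]
      congr 1
    have hda : 0 ≤ d ^ α := Real.rpow_nonneg hd0 _
    have hra : 0 ≤ r ^ (-α) := Real.rpow_nonneg hr.le _
    have h8 : 2 * C3 / r ^ 3 ≤ 4 * C3 * (d ^ α * r ^ (-3 - α)) := by
      calc 2 * C3 / r ^ 3 = 2 * C3 * (r ^ 3)⁻¹ * 1 := by ring
        _ ≤ 2 * C3 * (r ^ 3)⁻¹ * (2 ^ α * d ^ α * r ^ (-α)) := by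
          rw [← h5]
          exact mul_le_mul_of_nonneg_left h4 (by positivity)
        _ ≤ 2 * C3 * (r ^ 3)⁻¹ * (2 * d ^ α * r ^ (-α)) := by
          refine mul_le_mul_of_nonneg_left ?_ (by positivity)
          exact mul_le_mul_of_nonneg_right (mul_le_mul_of_nonneg_right h6 hda) hra
        _ = 4 * C3 * (d ^ α * ((r ^ 3)⁻¹ * r ^ (-α))) := by ring
        _ = _ := by rw [h7]
    have h9 := mul_le_mul_of_nonneg_right (show 4 * C3 ≤ 16 * C4 + 4 * C3 by linarith) hP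
    have h10 : (16 * C4 + 4 * C3) * (d ^ α * r ^ (-3 - α)) =
      (16 * C4 + 4 * C3) * d ^ α * r ^ (-3 - α) := by ring
    linarith

theorem kh (h1 : S_KD) (h2 : S_SM) : S_KH := by
  intro α ha0 ha1
  obtain ⟨C3, hC3, k3⟩ := h1 3 (by norm_num)
  obtain ⟨C4, hC4, k4⟩ := h1 4 (by norm_num)
  refine ⟨16 * C4 + 4 * C3, by positivity, fun e z w hz hw => ?_⟩
  have hC : 0 ≤ 16 * C4 + 4 * C3 := by positivity
  rcases le_total ‖z‖ ‖w‖ with h | h
  · refine (kh_aux h2 hC3 hC4 k3 k4 ha0 ha1 e hz h).trans ?_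
    refine mul_le_mul_of_nonneg_left ?_ (mul_nonneg hC (Real.rpow_nonneg (norm_nonneg _) _))
    have := Real.rpow_nonneg (norm_nonneg w) (-3 - α)
    linarith
  · rw [norm_sub_rev, norm_sub_rev z w]
    refine (kh_aux h2 hC3 hC4 k3 k4 ha0 ha1 e hw h).trans ?_
    refine mul_le_mul_of_nonneg_left ?_ (mul_nonneg hC (Real.rpow_nonneg (norm_nonneg _) _))
    have := Real.rpow_nonneg (norm_nonneg z) (-3 - α)
    linarith

end Pool.Agent.Q82.QC
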