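import Mathlib
import Pool.Agent.Q82.QC.Stm

/-!
# Project QC, job LAP
-/

set_option autoImplicit false

open MeasureTheory Filter Topology Real InnerProductSpace Laplacian

namespace Pool.Agent.Q82.QC

/-- the inner product as a bilinear map -/
noncomputable def lap_J : E →L[ℝ] E →L[ℝ] ℝ := innerSL ℝ

theorem lap_J_apply (x y : E) : lap_J x y = inner ℝ x y := rfl

theorem lap_radial (F F1 : ℝ → ℝ) (F2 : ℝ) (z : E)
    (h1 : ∀ᶠ s in 𝓝 (‖z‖ ^ 2), HasDerivAt F (F1 s) s)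
    (h2 : HasDerivAt F1 F2 (‖z‖ ^ 2)) :
    Δ (fun y : E => F (‖y‖ ^ 2)) z = 4 * ‖z‖ ^ 2 * F2 + 8 * F1 (‖z‖ ^ 2) := by
  have hc : Tendsto (fun y : E => ‖y‖ ^ 2) (𝓝 z) (𝓝 (‖z‖ ^ 2)) :=
    (continuous_norm.pow 2).continuousAt
  have hn : ∀ y : E, HasFDerivAt (fun y : E => ‖y‖ ^ 2) ((2 : ℝ) • lap_J y) y := by
    intro y
    have := (hasStrictFDerivAt_norm_sq (F := E) y).hasFDerivAt
    refine this.congr_fderiv ?_
    ext v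
    simp [lap_J_apply]
  have e1 : fderiv ℝ (fun y : E => F (‖y‖ ^ 2)) =ᶠ[𝓝 z]
      fun y => (2 * F1 (‖y‖ ^ 2)) • lap_J y := by
    filter_upwards [hc.eventually h1] with y hy
    have h3 : HasFDerivAt (fun y : E => F (‖y‖ ^ 2)) (F1 (‖y‖ ^ 2) • ((2 : ℝ) • lap_J y)) y :=
      hy.comp_hasFDerivAt y (hn y)
    rw [h3.fderiv, smul_smul, mul_comm]
  have e2 : HasFDerivAt (fun y : E => (2 * F1 (‖y‖ ^ 2)) • lap_J y)
      ((2 * F1 (‖z‖ ^ 2)) • lap_J + ((2 * F2) • ((2 : ℝ) • lap_J z)).smulRight (lap_J z)) z := by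
    have h3 : HasFDerivAt (fun y : E => 2 * F1 (‖y‖ ^ 2)) ((2 * F2) • ((2 : ℝ) • lap_J z)) z :=
      HasDerivAt.comp_hasFDerivAt (h₂ := fun s => 2 * F1 s) z (h2.const_mul 2) (hn z)
    exact h3.smul lap_J.hasFDerivAt
  have e3 : fderiv ℝ (fderiv ℝ (fun y : E => F (‖y‖ ^ 2))) z =
      (2 * F1 (‖z‖ ^ 2)) • lap_J + ((2 * F2) • ((2 : ℝ) • lap_J z)).smulRight (lap_J z) := by
    rw [e1.fderiv_eq]
    exact e2.fderiv
  rw [laplacian_eq_iteratedFDeriv_orthonormalBasis _ (EuclideanSpace.basisFun (Fin 4) ℝ)]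
  simp only [iteratedFDeriv_two_apply, Matrix.cons_val_zero, Matrix.cons_val_one, e3]
  have hz : ‖z‖ ^ 2 = z 0 ^ 2 + z 1 ^ 2 + z 2 ^ 2 + z 3 ^ 2 := by
    rw [EuclideanSpace.norm_sq_eq, Fin.sum_univ_four]
    simp
  generalize F1 (‖z‖ ^ 2) = f1
  rw [hz]
  simp [Fin.sum_univ_four, lap_J_apply, EuclideanSpace.inner_single_right]
  ring

theorem lap_one (e : ℝ) (z : E) (hz : 0 < e ^ 2 + ‖z‖ ^ 2) :
    Δ (lg e) z = 4 / (e ^ 2 + ‖z‖ ^ 2) + 4 * e ^ 2 / (e ^ 2 + ‖z‖ ^ 2) ^ 2 := by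
  have hev : ∀ᶠ s in 𝓝 (‖z‖ ^ 2), e ^ 2 + s ≠ 0 := by
    have : Tendsto (fun s : ℝ => e ^ 2 + s) (𝓝 (‖z‖ ^ 2)) (𝓝 (e ^ 2 + ‖z‖ ^ 2)) :=
      (continuous_const.add continuous_id).continuousAt
    exact this.eventually_ne hz.ne'
  have h := lap_radial (fun s => Real.log (e ^ 2 + s)) (fun s => 1 / (e ^ 2 + s))
    (-1 / (e ^ 2 + ‖z‖ ^ 2) ^ 2) z
    (by
      filter_upwards [hev] with s hs
      exact ((hasDerivAt_id s).const_add (e ^ 2)).log hs)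
    (by
      have h3 : HasDerivAt (fun s : ℝ => (e ^ 2 + s)⁻¹) (-1 / (e ^ 2 + ‖z‖ ^ 2) ^ 2) (‖z‖ ^ 2) :=
        ((hasDerivAt_id (‖z‖ ^ 2)).const_add (e ^ 2)).inv hz.ne'
      refine h3.congr_of_eventuallyEq (Eventually.of_forall fun s => ?_)
      exact one_div _)
  have h2 : Δ (lg e) z = Δ (fun y : E => (fun s => Real.log (e ^ 2 + s)) (‖y‖ ^ 2)) z := rfl
  rw [h2, h]
  set T := e ^ 2 + ‖z‖ ^ 2 with hT
  have h4 : ‖z‖ ^ 2 = T - e ^ 2 := by rw [hT]; ring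
  rw [h4]
  have hT0 : T ≠ 0 := hz.ne'
  field_simp
  ring

theorem lap (_h : S_SM) : S_LAP := by
  intro e z hz
  have hcont : Continuous (fun y : E => e ^ 2 + ‖y‖ ^ 2) := continuous_const.add (continuous_norm.pow 2)
  have hev0 : ∀ᶠ y : E in 𝓝 z, 0 < e ^ 2 + ‖y‖ ^ 2 := hcont.continuousAt.eventually (lt_mem_nhds hz)
  have h1 : Δ (lg e) =ᶠ[𝓝 z] fun y : E => (fun s : ℝ => 4 / (e ^ 2 + s) + 4 * e ^ 2 / (e ^ 2 + s) ^ 2)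
      (‖y‖ ^ 2) := by
    filter_upwards [hev0] with y hy
    exact lap_one e y hy
  rw [(laplacian_congr_nhds h1).eq_of_nhds]
  have hev : ∀ᶠ s in 𝓝 (‖z‖ ^ 2), e ^ 2 + s ≠ 0 := by
    have : Tendsto (fun s : ℝ => e ^ 2 + s) (𝓝 (‖z‖ ^ 2)) (𝓝 (e ^ 2 + ‖z‖ ^ 2)) :=
      (continuous_const.add continuous_id).continuousAt
    exact this.eventually_ne hz.ne'
  have hd : ∀ (n : ℕ) (c s : ℝ), e ^ 2 + s ≠ 0 →
      HasDerivAt (fun s : ℝ => c / (e ^ 2 + s) ^ n) (-(c * n) / (e ^ 2 + s) ^ (n + 1)) s := by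
    intro n c s hs
    have h3 : HasDerivAt (fun s : ℝ => (e ^ 2 + s) ^ n) ((n : ℝ) * (e ^ 2 + s) ^ (n - 1) * 1) s :=
      ((hasDerivAt_id s).const_add (e ^ 2)).pow n
    have h4 : HasDerivAt (fun s : ℝ => c / (e ^ 2 + s) ^ n)
        ((0 * (e ^ 2 + s) ^ n - c * ((n : ℝ) * (e ^ 2 + s) ^ (n - 1) * 1)) / ((e ^ 2 + s) ^ n) ^ 2) s :=
      (hasDerivAt_const s c).div h3 (pow_ne_zero n hs)
    refine h4.congr_deriv ?_
    rcases n with _ | n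
    · simp
    · rw [Nat.add_sub_cancel]
      have h5 : (e ^ 2 + s) ^ n ≠ 0 := pow_ne_zero _ hs
      rw [div_eq_div_iff (pow_ne_zero _ (pow_ne_zero _ hs)) (pow_ne_zero _ hs)]
      ring
  have h := lap_radial (fun s : ℝ => 4 / (e ^ 2 + s) + 4 * e ^ 2 / (e ^ 2 + s) ^ 2)
    (fun s => -4 / (e ^ 2 + s) ^ 2 + -(8 * e ^ 2) / (e ^ 2 + s) ^ 3)
    (8 / (e ^ 2 + ‖z‖ ^ 2) ^ 3 + 24 * e ^ 2 / (e ^ 2 + ‖z‖ ^ 2) ^ 4) z
    (by
      filter_upwards [hev] with s hs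
      have h3 := (hd 1 4 s hs).add (hd 2 (4 * e ^ 2) s hs)
      have h4 : HasDerivAt (fun s : ℝ => 4 / (e ^ 2 + s) ^ 1 + 4 * e ^ 2 / (e ^ 2 + s) ^ 2)
        (-4 / (e ^ 2 + s) ^ 2 + -(8 * e ^ 2) / (e ^ 2 + s) ^ 3) s := by
        refine h3.congr_deriv ?_
        norm_num
        ring
      simpa only [pow_one] using h4)
    (by
      have h3 := (hd 2 (-4) _ hz.ne').add (hd 3 (-(8 * e ^ 2)) _ hz.ne')
      have h4 : HasDerivAt (fun s : ℝ => -4 / (e ^ 2 + s) ^ 2 + -(8 * e ^ 2) / (e ^ 2 + s) ^ 3)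
        (8 / (e ^ 2 + ‖z‖ ^ 2) ^ 3 + 24 * e ^ 2 / (e ^ 2 + ‖z‖ ^ 2) ^ 4) (‖z‖ ^ 2) := by
        refine h3.congr_deriv ?_
        norm_num
        ring
      exact h4)
  rw [h]
  unfold bd
  set T := e ^ 2 + ‖z‖ ^ 2 with hT
  have h4 : ‖z‖ ^ 2 = T - e ^ 2 := by rw [hT]; ring
  rw [h4]
  have hT0 : T ≠ 0 := hz.ne'
  field_simp
  ring

end Pool.Agent.Q82.QC
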