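import Mathlib
import Pool.Agent.Q82.QC.Stm

/-!
# Project QC, job PHI
-/

set_option autoImplicit false

open MeasureTheory Filter Topology Real InnerProductSpace Laplacian

namespace Pool.Agent.Q82.QC

/-- the first coordinate -/
noncomputable def phi_pr : E →L[ℝ] ℝ := EuclideanSpace.proj (0 : Fin 4)

theorem phi_pr_apply (x : E) : phi_pr x = x 0 := rfl

theorem phi_lap (F F1 : ℝ → ℝ) (F2 : ℝ) (z : E) (h1 : ∀ᶠ s in 𝓝 (z 0), HasDerivAt F (F1 s) s)
    (h2 : HasDerivAt F1 F2 (z 0)) : Δ (fun y : E => F (y 0)) z = F2 := by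
  have hc : Tendsto (fun y : E => y 0) (𝓝 z) (𝓝 (z 0)) := phi_pr.continuous.continuousAt
  have e1 : fderiv ℝ (fun y : E => F (y 0)) =ᶠ[𝓝 z] fun y => F1 (y 0) • phi_pr := by
    filter_upwards [hc.eventually h1] with y hy
    exact (hy.comp_hasFDerivAt y (phi_pr.hasFDerivAt (x := y))).fderiv
  have e2 : HasFDerivAt (fun y : E => F1 (y 0) • phi_pr) ((F2 • phi_pr).smulRight phi_pr) z :=
    HasFDerivAt.smul_const (h2.comp_hasFDerivAt z (phi_pr.hasFDerivAt (x := z))) phi_pr
  have e3 : fderiv ℝ (fderiv ℝ (fun y : E => F (y 0))) z = (F2 • phi_pr).smulRight phi_pr := by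
    rw [e1.fderiv_eq]
    exact e2.fderiv
  rw [laplacian_eq_iteratedFDeriv_orthonormalBasis _ (EuclideanSpace.basisFun (Fin 4) ℝ)]
  simp only [iteratedFDeriv_two_apply, Matrix.cons_val_zero, Matrix.cons_val_one, e3]
  simp [phi_pr_apply, Fin.sum_univ_four]

theorem phi1 : S_PHI := by
  constructor
  · intro n
    have h : ContDiff ℝ n (fun x : E => x 0) := phi_pr.contDiff
    have h2 : ContDiff ℝ n (fun x : E => x 0 - x 0 ^ 3 / 3 - 2 / 3) :=
      ((h.sub ((h.pow 3).div_const 3)).sub contDiff_const)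
    exact h2
  · intro x
    have h1 : (Δ phi : E → ℝ) = fun y => -(2 * y 0) := by
      funext y
      have h := phi_lap (fun s => s - s ^ 3 / 3 - 2 / 3) (fun s => 1 - s ^ 2) (-(2 * y 0)) y
        (Eventually.of_forall fun s => by
          have h3 : HasDerivAt (fun s : ℝ => s - s ^ 3 / 3 - 2 / 3) (1 - ((3 : ℕ) * s ^ (3 - 1)) / 3) s :=
            ((hasDerivAt_id s).sub ((hasDerivAt_pow 3 s).div_const 3)).sub_const (2 / 3)
          refine h3.congr_deriv ?_
          norm_num) (by
          have h3 : HasDerivAt (fun s : ℝ => 1 - s ^ 2) (0 - (2 : ℕ) * y 0 ^ (2 - 1)) (y 0) :=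
            (hasDerivAt_const (y 0) (1 : ℝ)).sub (hasDerivAt_pow 2 (y 0))
          refine h3.congr_deriv ?_
          norm_num)
      exact h
    rw [h1]
    have h := phi_lap (fun s => -(2 * s)) (fun _ => -2) 0 x
        (Eventually.of_forall fun s => by
          have h3 : HasDerivAt (fun s : ℝ => -(2 * s)) (-(2 * 1)) s :=
            ((hasDerivAt_id s).const_mul 2).neg
          refine h3.congr_deriv ?_
          norm_num) (hasDerivAt_const _ _)
    exact h

end Pool.Agent.Q82.QC
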