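import Mathlib
import Pool.Agent.Q82.QC.Stm

/-!
# Project QC, job POTB
-/

set_option autoImplicit false

open MeasureTheory Filter Topology Real InnerProductSpace Laplacian

namespace Pool.Agent.Q82.QC

theorem potb_pp {x : E} (hx : x ∈ Om) : 8 ≤ ‖x - pp‖ := by
  have h1 : |(x - pp) 0| ≤ ‖x - pp‖ := by
    have := PiLp.norm_apply_le (x - pp) 0
    rwa [Real.norm_eq_abs] at this
  have h2 : (x - pp) 0 = x 0 - 10 := by
    simp [pp]
  rw [h2] at h1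
  have h3 := hx.2
  have h4 : |x 0 - 10| = 10 - x 0 := by
    rw [abs_of_neg (by linarith)]
    ring
  linarith

/-- bound of the kernel -/
theorem potb_ker (e R : ℝ) (he : 0 < e) : ∃ C : ℝ, ∀ x ∈ Om, ∀ y : E,
    ‖y - pp‖ ≤ R → |lg 0 (x - pp) - lg e (x - y)| ≤ C := by
  refine ⟨Real.log (3 + 2 * R ^ 2 / e ^ 2 + e ^ 2 + 2 * R ^ 2), fun x hx y hy => ?_⟩
  have hx8 := potb_pp hx
  set a := ‖x - pp‖ with ha
  set b := ‖x - y‖ with hb
  have hb0 : 0 ≤ b := norm_nonneg _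
  have hR0 : 0 ≤ R := (norm_nonneg _).trans hy
  have h1 : a ≤ b + R := by
    have : x - pp = (x - y) + (y - pp) := by abel
    rw [ha, this]
    exact (norm_add_le _ _).trans (by linarith)
  have h2 : b ≤ a + R := by
    have : x - y = (x - pp) - (y - pp) := by abel
    rw [hb, this]
    exact (norm_sub_le _ _).trans (by linarith)
  have h3 : a ^ 2 ≤ 2 * b ^ 2 + 2 * R ^ 2 := by nlinarith [sq_nonneg (b - R)]
  have h4 : b ^ 2 ≤ 2 * a ^ 2 + 2 * R ^ 2 := by nlinarith [sq_nonneg (a - R)]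
  set K := 3 + 2 * R ^ 2 / e ^ 2 + e ^ 2 + 2 * R ^ 2 with hK
  have hK0 : 0 < K := by positivity
  have he2 : 0 < e ^ 2 := by positivity
  have hT : 0 < e ^ 2 + b ^ 2 := by positivity
  have ha2 : 0 < a ^ 2 := by positivity
  have h5 : a ^ 2 ≤ K * (e ^ 2 + b ^ 2) := by
    have h6 : 2 * R ^ 2 / e ^ 2 * e ^ 2 = 2 * R ^ 2 := div_mul_cancel₀ _ he2.ne'
    have h7 : 2 * R ^ 2 ≤ 2 * R ^ 2 / e ^ 2 * (e ^ 2 + b ^ 2) := by
      rw [mul_add, h6]
      have : 0 ≤ 2 * R ^ 2 / e ^ 2 * b ^ 2 := by positivity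
      linarith
    have h8 : (3 + e ^ 2 + 2 * R ^ 2) * (e ^ 2 + b ^ 2) ≥ 2 * b ^ 2 := by nlinarith [sq_nonneg b, sq_nonneg R]
    have h9 : K * (e ^ 2 + b ^ 2) = (3 + e ^ 2 + 2 * R ^ 2) * (e ^ 2 + b ^ 2) +
      2 * R ^ 2 / e ^ 2 * (e ^ 2 + b ^ 2) := by rw [hK]; ring
    linarith
  have h6 : e ^ 2 + b ^ 2 ≤ K * a ^ 2 := by
    have h7 : 1 ≤ a ^ 2 := by nlinarith
    have h8 : e ^ 2 ≤ e ^ 2 * a ^ 2 := by nlinarith
    have h9 : 2 * R ^ 2 ≤ 2 * R ^ 2 * a ^ 2 := by nlinarith [sq_nonneg R]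
    have h10 : 0 ≤ 2 * R ^ 2 / e ^ 2 * a ^ 2 := by positivity
    have h11 : K * a ^ 2 = 3 * a ^ 2 + 2 * R ^ 2 / e ^ 2 * a ^ 2 + e ^ 2 * a ^ 2 + 2 * R ^ 2 * a ^ 2 := by
      rw [hK]; ring
    linarith
  have e1 : lg 0 (x - pp) = Real.log (a ^ 2) := by
    unfold lg
    rw [← ha]
    norm_num
  have e2 : lg e (x - y) = Real.log (e ^ 2 + b ^ 2) := rfl
  rw [e1, e2, abs_le]
  have h7 := Real.log_le_log ha2 h5
  have h8 := Real.log_le_log hT h6
  rw [Real.log_mul hK0.ne' hT.ne'] at h7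
  rw [Real.log_mul hK0.ne' ha2.ne'] at h8
  constructor <;> linarith

theorem potb : S_POTB := by
  intro e g he hg hc
  obtain ⟨R, hR⟩ := hc.isCompact.exists_bound_of_continuousOn (f := fun y : E => y - pp)
    (continuous_id.sub continuous_const).continuousOn
  obtain ⟨C, hC⟩ := potb_ker e R he
  have hgi : Integrable g := hg.integrable_of_hasCompactSupport hc
  refine ⟨(16 * π ^ 2)⁻¹ * ∫ y, C * |g y|, fun x hx => ?_⟩
  have hpi : 0 < (16 * π ^ 2)⁻¹ := by positivity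
  unfold pot
  rw [abs_mul, abs_of_pos hpi]
  refine mul_le_mul_of_nonneg_left ?_ hpi.le
  rw [← Real.norm_eq_abs]
  refine norm_integral_le_of_norm_le (hgi.abs.const_mul C) (Eventually.of_forall fun y => ?_)
  rw [norm_mul, Real.norm_eq_abs, Real.norm_eq_abs]
  by_cases hy : y ∈ tsupport g
  · exact mul_le_mul_of_nonneg_right (hC x hx y (hR y hy)) (abs_nonneg _)
  · rw [image_eq_zero_of_notMem_tsupport hy, abs_zero, mul_zero, mul_zero]

end Pool.Agent.Q82.QC
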