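import Mathlib
import Pool.Agent.Q82.QC.Stm

/-!
# Project QC, job POTL
-/

set_option autoImplicit false

open MeasureTheory Filter Topology Real InnerProductSpace Laplacian

namespace Pool.Agent.Q82.QC

theorem potl_smooth (f : E → ℝ) (x : E) (hf : ∀ n : ℕ, ContDiffAt ℝ n f x) (n : ℕ) :
    ContDiffAt ℝ n (Δ f) x := by
  rw [laplacian_eq_iteratedFDeriv_orthonormalBasis _ (EuclideanSpace.basisFun (Fin 4) ℝ)]
  refine ContDiffAt.sum fun i _ => ?_
  have h1 : ContDiffAt ℝ n (iteratedFDeriv ℝ 2 f) x :=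
    (hf (n + 2)).iteratedFDeriv_right (by exact_mod_cast le_rfl)
  exact (ContinuousMultilinearMap.apply ℝ (fun _ : Fin 2 => E) ℝ
    ![EuclideanSpace.basisFun (Fin 4) ℝ i, EuclideanSpace.basisFun (Fin 4) ℝ i]).contDiff.contDiffAt.comp x h1

theorem potl_trans (f : E → ℝ) (a : E) : Δ (fun z => f (z - a)) = fun z => Δ f (z - a) := by
  funext z
  rw [laplacian_eq_iteratedFDeriv_orthonormalBasis _ (EuclideanSpace.basisFun (Fin 4) ℝ),
    laplacian_eq_iteratedFDeriv_orthonormalBasis _ (EuclideanSpace.basisFun (Fin 4) ℝ)]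
  simp only [iteratedFDeriv_comp_sub]

theorem potl_conv (h1 : S_CD) (L g : E → ℝ) (hL : ∀ n : ℕ, ContDiff ℝ n L) (hg : Continuous g)
    (hc : HasCompactSupport g) : Δ (fun x => ∫ y, L (x - y) * g y) =
      fun x => ∫ y, (Δ L) (x - y) * g y := by
  funext x
  rw [laplacian_eq_iteratedFDeriv_orthonormalBasis _ (EuclideanSpace.basisFun (Fin 4) ℝ),
    laplacian_eq_iteratedFDeriv_orthonormalBasis _ (EuclideanSpace.basisFun (Fin 4) ℝ)]
  have h2 := (h1 L g hL hg hc).2 2 x
  have hcont : Continuous (iteratedFDeriv ℝ 2 L) := by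
    have : ContDiff ℝ (0 : ℕ) (iteratedFDeriv ℝ 2 L) :=
      (hL 2).iteratedFDeriv_right (by norm_num)
    exact this.continuous
  have hint : Integrable (fun y => g y • iteratedFDeriv ℝ 2 L (x - y)) := by
    refine Continuous.integrable_of_hasCompactSupport ?_ hc.smul_right
    exact hg.smul (hcont.comp (continuous_const.sub continuous_id))
  have h3 : ∀ v : Fin 2 → E, (∫ y, g y • iteratedFDeriv ℝ 2 L (x - y)) v =
      ∫ y, iteratedFDeriv ℝ 2 L (x - y) v * g y := by
    intro v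
    rw [ContinuousMultilinearMap.integral_apply hint]
    refine integral_congr_ae (Eventually.of_forall fun y => ?_)
    simp only [ContinuousMultilinearMap.smul_apply, smul_eq_mul, mul_comm]
  simp only [h2, h3]
  rw [← integral_finsetSum]
  · refine integral_congr_ae (Eventually.of_forall fun y => ?_)
    simp only [Finset.sum_mul]
  · intro i _
    refine Continuous.integrable_of_hasCompactSupport ?_ hc.mul_left
    refine Continuous.mul ?_ hg
    exact (ContinuousMultilinearMap.apply ℝ (fun _ : Fin 2 => E) ℝ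
      ![EuclideanSpace.basisFun (Fin 4) ℝ i, EuclideanSpace.basisFun (Fin 4) ℝ i]).continuous.comp
      (hcont.comp (continuous_const.sub continuous_id))

theorem potl_ne {x : E} (hx : x ∈ Om) : 0 < (0 : ℝ) ^ 2 + ‖x - pp‖ ^ 2 := by
  have h : x - pp ≠ 0 := by
    intro h
    have h1 : (x - pp) 0 = 0 := by rw [h]; rfl
    have h2 : (x - pp) 0 = x 0 - 10 := by
      simp [pp]
    rw [h2] at h1
    have h3 := hx.2
    linarith
  have h4 : 0 < ‖x - pp‖ := norm_pos_iff.2 h
  positivity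

theorem potl_open : IsOpen Om := by
  have h : Continuous (fun x : E => x 0) := (EuclideanSpace.proj (0 : Fin 4)).continuous
  exact (isOpen_lt continuous_const h).inter (isOpen_lt h continuous_const)

theorem potl (h1 : S_CD) (h2 : S_LAP) (h3 : S_SM) : S_POTL := by
  intro e g he hg hc x hx
  have hpos : ∀ z : E, 0 < e ^ 2 + ‖z‖ ^ 2 := fun z => by positivity
  have hL : ∀ n : ℕ, ContDiff ℝ n (lg e) := fun n =>
    contDiff_iff_contDiffAt.2 fun z => h3 e z (hpos z) n
  have hL2 : ∀ n : ℕ, ContDiff ℝ n (Δ (lg e)) := fun n =>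
    contDiff_iff_contDiffAt.2 fun z => potl_smooth _ z (fun n => (hL n).contDiffAt) n
  obtain ⟨hI, -⟩ := h1 (lg e) g hL hg hc
  obtain ⟨hI2, -⟩ := h1 (Δ (lg e)) g hL2 hg hc
  set I : E → ℝ := fun x => ∫ y, lg e (x - y) * g y with hIdef
  have hI1 : Δ I = fun x => ∫ y, (Δ (lg e)) (x - y) * g y := potl_conv h1 (lg e) g hL hg hc
  have hI3 : Δ (Δ I) = fun x => ∫ y, (Δ (Δ (lg e))) (x - y) * g y := by
    rw [hI1]
    exact potl_conv h1 (Δ (lg e)) g hL2 hg hc
  set u0 : E → ℝ := fun z => lg 0 (z - pp) with hu0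
  have hu : ∀ z ∈ Om, ∀ n : ℕ, ContDiffAt ℝ n u0 z := by
    intro z hz n
    have h5 : ContDiffAt ℝ n (lg 0) (z - pp) := h3 0 (z - pp) (potl_ne hz) n
    exact ContDiffAt.comp (g := lg 0) (f := fun z : E => z - pp) z h5 (contDiffAt_id.sub contDiffAt_const)
  have hpot : pot e g = (16 * π ^ 2)⁻¹ • ((∫ y, g y) • u0 - I) := by
    funext z
    have h5 : ∫ y, (lg 0 (z - pp) - lg e (z - y)) * g y = (∫ y, g y) * u0 z - I z := by
      have h6 : ∀ y, (lg 0 (z - pp) - lg e (z - y)) * g y = lg 0 (z - pp) * g y - lg e (z - y) * g y :=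
        fun y => sub_mul _ _ _
      simp only [h6]
      rw [integral_sub, integral_const_mul, mul_comm]
      · exact (hg.integrable_of_hasCompactSupport hc).const_mul _
      · refine Continuous.integrable_of_hasCompactSupport ?_ hc.mul_left
        exact ((hL 0).continuous.comp (continuous_const.sub continuous_id)).mul hg
    simp only [pot, h5, Pi.smul_apply, Pi.sub_apply, smul_eq_mul]
  have hsm : ∀ z ∈ Om, ∀ n : ℕ, ContDiffAt ℝ n ((∫ y, g y) • u0 - I) z := fun z hz n =>
    (contDiffAt_const.smul (hu z hz n)).sub (hI n).contDiffAt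
  refine ⟨fun n => ?_, ?_⟩
  · rw [hpot]
    exact contDiffAt_const.smul (hsm x hx n)
  · rw [hpot]
    have hx2 : ∀ z ∈ Om, Δ ((16 * π ^ 2)⁻¹ • ((∫ y, g y) • u0 - I)) z =
        ((16 * π ^ 2)⁻¹ • ((∫ y, g y) • Δ u0 - Δ I)) z := by
      intro z hz
      rw [laplacian_smul _ (by exact_mod_cast hsm z hz 2),
        ContDiffAt.laplacian_sub (by exact_mod_cast contDiffAt_const.smul (hu z hz 2))
          (by exact_mod_cast (hI 2).contDiffAt),
        laplacian_smul _ (by exact_mod_cast hu z hz 2)]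
      rfl
    have hx3 : Δ ((16 * π ^ 2)⁻¹ • ((∫ y, g y) • u0 - I)) =ᶠ[𝓝 x]
        ((16 * π ^ 2)⁻¹ • ((∫ y, g y) • Δ u0 - Δ I)) :=
      Filter.Eventually.mono (potl_open.mem_nhds hx) fun z hz => hx2 z hz
    rw [(laplacian_congr_nhds hx3).eq_of_nhds]
    have hs0 : ∀ n : ℕ, ContDiffAt ℝ n (Δ u0) x := potl_smooth u0 x (hu x hx)
    have hs1 : ∀ n : ℕ, ContDiffAt ℝ n (Δ I) x := potl_smooth I x fun n => (hI n).contDiffAt
    rw [laplacian_smul _ (by exact_mod_cast (contDiffAt_const.smul (hs0 2)).sub (hs1 2)),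
      ContDiffAt.laplacian_sub (by exact_mod_cast contDiffAt_const.smul (hs0 2))
        (by exact_mod_cast hs1 2), laplacian_smul _ (by exact_mod_cast hs0 2), hI3]
    have h6 : Δ (Δ u0) x = 0 := by
      rw [hu0, potl_trans, potl_trans]
      change Δ (Δ (lg 0)) (x - pp) = 0
      rw [h2 0 (x - pp) (potl_ne hx)]
      simp [bd]
    have h7 : ∫ y, (Δ (Δ (lg e))) (x - y) * g y = -∫ y, bd e (x - y) * g y := by
      rw [← integral_neg]
      refine integral_congr_ae (Eventually.of_forall fun y => ?_)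
      simp only [h2 e (x - y) (hpos _), neg_mul]
    simp only [h6, h7, mol, smul_eq_mul]
    ring

end Pool.Agent.Q82.QC
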