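import Mathlib
import Pool.Agent.Q82.QC.Stm

/-!
# Project QC, job SM
-/

set_option autoImplicit false

open MeasureTheory Filter Topology Real InnerProductSpace Laplacian

namespace Pool.Agent.Q82.QC

theorem sm : S_SM := by
  intro e z hz n
  have h : ContDiffAt ℝ n (fun z : E => e ^ 2 + ‖z‖ ^ 2) z :=
    contDiffAt_const.add (contDiff_norm_sq ℝ).contDiffAt
  exact h.log hz.ne'

end Pool.Agent.Q82.QC
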