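import Mathlib
import Pool.Agent.Q82.QC.Stm

/-!
# Project QC, job WB
-/

set_option autoImplicit false

open MeasureTheory Filter Topology Real InnerProductSpace Laplacian

namespace Pool.Agent.Q82.QC

theorem wb_pp {x : E} (hx : x ∈ Om) : 8 ≤ ‖x - pp‖ := by
  have h1 : |(x - pp) 0| ≤ ‖x - pp‖ := by
    have := PiLp.norm_apply_le (x - pp) 0
    rwa [Real.norm_eq_abs] at this
  have h2 : (x - pp) 0 = x 0 - 10 := by
    simp [pp]
  rw [h2] at h1
  have h3 := hx.2
  have h4 : |x 0 - 10| = 10 - x 0 := by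
    rw [abs_of_neg (by linarith)]
    ring
  linarith

theorem wb_pp' {x : E} (hx : x 0 ≠ 10) : 0 < ‖x - pp‖ := by
  have h : x - pp ≠ 0 := by
    intro h
    have h1 : (x - pp) 0 = 0 := by rw [h]; rfl
    have h2 : (x - pp) 0 = x 0 - 10 := by
      simp [pp]
    rw [h2] at h1
    exact hx (by linarith)
  exact norm_pos_iff.2 h

theorem wb_HH {A : Finset E} (hA : GoodA A) {a : E} (ha : a ∈ A) : 0 < HH A a := by
  have h1 : 0 < ‖a - pp‖ := wb_pp' (by rw [hA a ha]; norm_num)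
  refine Finset.prod_pos fun b hb => ?_
  have h3 : a - b ≠ 0 := sub_ne_zero.2 (Finset.ne_of_mem_erase hb).symm
  exact pow_pos (div_pos h1 (norm_pos_iff.2 h3)) 2

theorem wb_ev (D : ℝ) (hD : 0 ≤ D) (n : ℕ) :
    ∀ᶠ β : ℝ in atTop, (1 + D * β) ^ n * Real.exp (-(β / 2)) ≤ 1 := by
  have h1 : Tendsto (fun β : ℝ => (2 * (1 + D)) ^ n * ((β / 2) ^ n * Real.exp (-(β / 2)))) atTop
      (𝓝 ((2 * (1 + D)) ^ n * 0)) :=
    ((Real.tendsto_pow_mul_exp_neg_atTop_nhds_zero n).comp
      (tendsto_id.atTop_div_const two_pos)).const_mul _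
  rw [mul_zero] at h1
  filter_upwards [h1.eventually (gt_mem_nhds one_pos), eventually_ge_atTop 1] with β hβ hβ1
  have h2 : (1 + D * β) ^ n ≤ (2 * (1 + D)) ^ n * (β / 2) ^ n := by
    rw [← mul_pow]
    refine pow_le_pow_left₀ (by positivity) ?_ n
    nlinarith
  calc (1 + D * β) ^ n * Real.exp (-(β / 2)) ≤
      ((2 * (1 + D)) ^ n * (β / 2) ^ n) * Real.exp (-(β / 2)) :=
        mul_le_mul_of_nonneg_right h2 (Real.exp_pos _).le
    _ = (2 * (1 + D)) ^ n * ((β / 2) ^ n * Real.exp (-(β / 2))) := by ring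
    _ ≤ 1 := hβ.le

theorem wb_phi {x : E} (hx : |x 0 + 1| < 1 / 2) : phi x ≤ -(3 / 8) := by
  obtain ⟨h1, h2⟩ := abs_lt.1 hx
  have h3 : phi x = -((x 0 - 1) ^ 2 * (x 0 + 2) / 3) := by
    unfold phi
    ring
  have h4 : 9 / 4 ≤ (x 0 - 1) ^ 2 := by nlinarith
  have h5 : 1 / 2 ≤ x 0 + 2 := by linarith
  have h6 : 9 / 4 * (1 / 2) ≤ (x 0 - 1) ^ 2 * (x 0 + 2) :=
    mul_le_mul h4 h5 (by norm_num) (sq_nonneg _)
  rw [h3]
  linarith

/-- the factor -/
theorem wb_fac {D e t s : ℝ} (hD : 0 ≤ D) (ht : 0 < t) (hs : 0 ≤ s) (hst : s ≤ t + D) :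
    (s ^ 2 / (e ^ 2 + t ^ 2)) ^ 4 ≤ (1 + D / t) ^ 8 := by
  have h1 : s ^ 2 / (e ^ 2 + t ^ 2) ≤ (1 + D / t) ^ 2 := by
    have h2 : s ^ 2 / (e ^ 2 + t ^ 2) ≤ s ^ 2 / t ^ 2 :=
      div_le_div_of_nonneg_left (sq_nonneg _) (by positivity) (by nlinarith [sq_nonneg e])
    have h3 : s / t ≤ 1 + D / t := by
      rw [div_le_iff₀ ht, add_mul, div_mul_cancel₀ _ ht.ne']
      linarith
    rw [← div_pow] at h2
    exact h2.trans (pow_le_pow_left₀ (by positivity) h3 2)
  calc (s ^ 2 / (e ^ 2 + t ^ 2)) ^ 4 ≤ ((1 + D / t) ^ 2) ^ 4 := pow_le_pow_left₀ (by positivity) h1 4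
    _ = (1 + D / t) ^ 8 := by rw [← pow_mul]

theorem wb (h1 : S_WP) : S_WB := by
  intro A hA
  obtain ⟨D, hD0, hD⟩ : ∃ D : ℝ, 0 ≤ D ∧ ∀ a ∈ A, ‖a - pp‖ ≤ D :=
    ⟨∑ a ∈ A, ‖a - pp‖, Finset.sum_nonneg fun a _ => norm_nonneg _,
      fun a ha => Finset.single_le_sum (f := fun a => ‖a - pp‖) (fun b _ => norm_nonneg _) ha⟩
  obtain ⟨β1, hβ1⟩ := eventually_atTop.1 (wb_ev D hD0 (8 * A.card + 8))
  set S : ℝ := ∑ a ∈ A, 6 * HH A a ^ 4 with hS
  have hS0 : 0 ≤ S := Finset.sum_nonneg fun a _ => by positivity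
  refine ⟨(1 + 2 * D) ^ (8 * A.card) + 1 + S, max 1 β1, by positivity, le_max_left _ _,
    fun β hβ x hx hxa => ?_⟩
  have hβ1' : 1 ≤ β := (le_max_left _ _).trans hβ
  have hβ0 : 0 < β := by linarith
  have hev := hβ1 β ((le_max_right _ _).trans hβ)
  have hx8 := wb_pp hx
  have hx0 : 0 < ‖x - pp‖ := by linarith
  set P := ‖x - pp‖ with hP
  have htri : ∀ a ∈ A, P ≤ ‖x - a‖ + D := by
    intro a ha
    have : x - pp = (x - a) + (a - pp) := by abel
    rw [hP, this]
    exact (norm_add_le _ _).trans (by linarith [hD a ha])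
  have hta : ∀ a ∈ A, 0 < ‖x - a‖ := fun a ha => lt_of_lt_of_le (by positivity) (hxa a ha)
  have hβD : ∀ a ∈ A, D / ‖x - a‖ ≤ D * β := by
    intro a ha
    rw [div_le_iff₀ (hta a ha)]
    have h3 := hxa a ha
    rw [div_le_iff₀ hβ0] at h3
    nlinarith
  have hbase : 1 ≤ 1 + D * β := by
    have : 0 ≤ D * β := by positivity
    linarith
  have hP8 : 0 < P ^ 8 := by positivity
  constructor
  · rw [h1 A hA β x hx]
    rcases le_or_gt (1 / 2) |x 0 + 1| with hc | hc
    · have h2 : ∏ a ∈ A, (P ^ 2 / (ep A β a ^ 2 + ‖x - a‖ ^ 2)) ^ 4 ≤ (1 + 2 * D) ^ (8 * A.card) := by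
        rw [pow_mul, ← Finset.prod_const]
        refine Finset.prod_le_prod (fun a _ => by positivity) fun a ha => ?_
        refine (wb_fac hD0 (hta a ha) hx0.le (htri a ha)).trans ?_
        refine pow_le_pow_left₀ (by have := hta a ha; positivity) ?_ 8
        have h3 : 1 / 2 ≤ ‖x - a‖ := by
          have h4 : |(x - a) 0| ≤ ‖x - a‖ := by
            have := PiLp.norm_apply_le (x - a) 0
            rwa [Real.norm_eq_abs] at this
          have h5 : (x - a) 0 = x 0 + 1 := by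
            have : (x - a) 0 = x 0 - a 0 := rfl
            rw [this, hA a ha]
            ring
          rw [h5] at h4
          linarith
        have h4 : D / ‖x - a‖ ≤ 2 * D := by
          rw [div_le_iff₀ (hta a ha)]
          nlinarith
        linarith
      calc Real.exp (4 * β * phi x) / P ^ 8 * ∏ a ∈ A, (P ^ 2 / (ep A β a ^ 2 + ‖x - a‖ ^ 2)) ^ 4 ≤
          Real.exp (4 * β * phi x) / P ^ 8 * (1 + 2 * D) ^ (8 * A.card) :=
            mul_le_mul_of_nonneg_left h2 (by positivity)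
        _ = (1 + 2 * D) ^ (8 * A.card) / P ^ 8 * Real.exp (4 * β * phi x) := by ring
        _ ≤ ((1 + 2 * D) ^ (8 * A.card) + 1 + S) / P ^ 8 * (Real.exp (4 * β * phi x) + Real.exp (-β)) := by
          refine mul_le_mul (div_le_div_of_nonneg_right (by linarith) hP8.le) ?_ (Real.exp_pos _).le
            (by positivity)
          have := Real.exp_pos (-β)
          linarith
    · have h2 : ∏ a ∈ A, (P ^ 2 / (ep A β a ^ 2 + ‖x - a‖ ^ 2)) ^ 4 ≤ (1 + D * β) ^ (8 * A.card) := by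
        rw [pow_mul, ← Finset.prod_const]
        refine Finset.prod_le_prod (fun a _ => by positivity) fun a ha => ?_
        refine (wb_fac hD0 (hta a ha) hx0.le (htri a ha)).trans ?_
        refine pow_le_pow_left₀ (by have := hta a ha; positivity) ?_ 8
        linarith [hβD a ha]
      have h3 : Real.exp (4 * β * phi x) ≤ Real.exp (-(β / 2)) * Real.exp (-β) := by
        rw [← Real.exp_add]
        refine Real.exp_le_exp.2 ?_
        have := wb_phi hc
        nlinarith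
      have h4 : (1 + D * β) ^ (8 * A.card) * Real.exp (-(β / 2)) ≤ 1 := by
        refine le_trans ?_ hev
        exact mul_le_mul_of_nonneg_right (pow_le_pow_right₀ hbase (by omega)) (Real.exp_pos _).le
      calc Real.exp (4 * β * phi x) / P ^ 8 * ∏ a ∈ A, (P ^ 2 / (ep A β a ^ 2 + ‖x - a‖ ^ 2)) ^ 4 ≤
          (Real.exp (-(β / 2)) * Real.exp (-β)) / P ^ 8 * (1 + D * β) ^ (8 * A.card) :=
            mul_le_mul (div_le_div_of_nonneg_right h3 hP8.le) h2
              (Finset.prod_nonneg fun a _ => by positivity) (by positivity)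
        _ = ((1 + D * β) ^ (8 * A.card) * Real.exp (-(β / 2))) * (Real.exp (-β) / P ^ 8) := by ring
        _ ≤ 1 * (Real.exp (-β) / P ^ 8) := mul_le_mul_of_nonneg_right h4 (by positivity)
        _ = 1 / P ^ 8 * Real.exp (-β) := by ring
        _ ≤ ((1 + 2 * D) ^ (8 * A.card) + 1 + S) / P ^ 8 * (Real.exp (4 * β * phi x) + Real.exp (-β)) := by
          refine mul_le_mul (div_le_div_of_nonneg_right ?_ hP8.le) ?_ (Real.exp_pos _).le
            (by positivity)
          · have : 0 ≤ (1 + 2 * D) ^ (8 * A.card) := by positivity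
            linarith
          · have := Real.exp_pos (4 * β * phi x)
            linarith
  · have h2 : ∀ a ∈ A, bd (ep A β a) (x - a) ≤ 6 * HH A a ^ 4 * (Real.exp (-β) / P ^ 8) := by
      intro a ha
      have ht := hta a ha
      have h3 : P ^ 8 ≤ (1 + D * β) ^ 8 * ‖x - a‖ ^ 8 := by
        rw [← mul_pow]
        refine pow_le_pow_left₀ hx0.le ?_ 8
        have h4 := htri a ha
        have h5 := hβD a ha
        rw [div_le_iff₀ ht] at h5
        linarith
      have h4 : bd (ep A β a) (x - a) ≤ 96 * ep A β a ^ 4 / ‖x - a‖ ^ 8 := by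
        unfold bd
        refine div_le_div_of_nonneg_left (by positivity) (by positivity) ?_
        calc ‖x - a‖ ^ 8 = (‖x - a‖ ^ 2) ^ 4 := by ring
          _ ≤ _ := pow_le_pow_left₀ (by positivity) (by nlinarith [sq_nonneg (ep A β a)]) 4
      have h5 : 96 * ep A β a ^ 4 / ‖x - a‖ ^ 8 ≤ 96 * ep A β a ^ 4 * ((1 + D * β) ^ 8 / P ^ 8) := by
        rw [div_le_iff₀ (by positivity)]
        have h6 : 1 ≤ (1 + D * β) ^ 8 / P ^ 8 * ‖x - a‖ ^ 8 := by
          rw [div_mul_eq_mul_div, le_div_iff₀ hP8, one_mul]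
          exact h3
        have h7 : 0 ≤ 96 * ep A β a ^ 4 := by positivity
        nlinarith
      have h6 : 96 * ep A β a ^ 4 = 6 * HH A a ^ 4 * Real.exp (-(16 / 3) * β) := by
        have h7 : Real.exp (-(16 / 3) * β) = Real.exp (-(4 / 3) * β) ^ 4 := by
          rw [← Real.exp_nat_mul]
          congr 1
          push_cast
          ring
        unfold ep
        rw [h7]
        ring
      have h7 : Real.exp (-(16 / 3) * β) * (1 + D * β) ^ 8 ≤ Real.exp (-β) := by
        have h8 : Real.exp (-(16 / 3) * β) ≤ Real.exp (-(β / 2)) * Real.exp (-β) := by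
          rw [← Real.exp_add]
          refine Real.exp_le_exp.2 ?_
          nlinarith
        have h9 : (1 + D * β) ^ 8 * Real.exp (-(β / 2)) ≤ 1 := by
          refine le_trans ?_ hev
          exact mul_le_mul_of_nonneg_right (pow_le_pow_right₀ hbase (by omega)) (Real.exp_pos _).le
        calc Real.exp (-(16 / 3) * β) * (1 + D * β) ^ 8 ≤
            (Real.exp (-(β / 2)) * Real.exp (-β)) * (1 + D * β) ^ 8 :=
              mul_le_mul_of_nonneg_right h8 (by positivity)
          _ = ((1 + D * β) ^ 8 * Real.exp (-(β / 2))) * Real.exp (-β) := by ring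
          _ ≤ 1 * Real.exp (-β) := mul_le_mul_of_nonneg_right h9 (Real.exp_pos _).le
          _ = _ := one_mul _
      have hHH := wb_HH hA ha
      calc bd (ep A β a) (x - a) ≤ 96 * ep A β a ^ 4 * ((1 + D * β) ^ 8 / P ^ 8) := h4.trans h5
        _ = 6 * HH A a ^ 4 * ((Real.exp (-(16 / 3) * β) * (1 + D * β) ^ 8) / P ^ 8) := by
          rw [h6]; ring
        _ ≤ 6 * HH A a ^ 4 * (Real.exp (-β) / P ^ 8) :=
          mul_le_mul_of_nonneg_left (div_le_div_of_nonneg_right h7 hP8.le) (by positivity)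
    calc B A β x ≤ ∑ a ∈ A, 6 * HH A a ^ 4 * (Real.exp (-β) / P ^ 8) := Finset.sum_le_sum h2
      _ = S / P ^ 8 * Real.exp (-β) := by rw [← Finset.sum_mul, ← hS]; ring
      _ ≤ ((1 + 2 * D) ^ (8 * A.card) + 1 + S) / P ^ 8 * Real.exp (-β) := by
        refine mul_le_mul_of_nonneg_right (div_le_div_of_nonneg_right ?_ hP8.le) (Real.exp_pos _).le
        have : 0 ≤ (1 + 2 * D) ^ (8 * A.card) := by positivity
        linarith

end Pool.Agent.Q82.QC
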