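import Mathlib
import Pool.Agent.Q82.QC.Stm

/-!
# Project QC, job WL
-/

set_option autoImplicit false

open MeasureTheory Filter Topology Real InnerProductSpace Laplacian

namespace Pool.Agent.Q82.QC

theorem wl_smooth (f : E → ℝ) (x : E) (hf : ∀ n : ℕ, ContDiffAt ℝ n f x) (n : ℕ) :
    ContDiffAt ℝ n (Δ f) x := by
  rw [laplacian_eq_iteratedFDeriv_orthonormalBasis _ (EuclideanSpace.basisFun (Fin 4) ℝ)]
  refine ContDiffAt.sum fun i _ => ?_
  have h1 : ContDiffAt ℝ n (iteratedFDeriv ℝ 2 f) x :=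
    (hf (n + 2)).iteratedFDeriv_right (by exact_mod_cast le_rfl)
  exact (ContinuousMultilinearMap.apply ℝ (fun _ : Fin 2 => E) ℝ
    ![EuclideanSpace.basisFun (Fin 4) ℝ i, EuclideanSpace.basisFun (Fin 4) ℝ i]).contDiff.contDiffAt.comp x h1

theorem wl_trans (f : E → ℝ) (a : E) : Δ (fun z => f (z - a)) = fun z => Δ f (z - a) := by
  funext z
  rw [laplacian_eq_iteratedFDeriv_orthonormalBasis _ (EuclideanSpace.basisFun (Fin 4) ℝ),
    laplacian_eq_iteratedFDeriv_orthonormalBasis _ (EuclideanSpace.basisFun (Fin 4) ℝ)]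
  simp only [iteratedFDeriv_comp_sub]

theorem wl_pp {x : E} (hx : x 0 ≠ 10) : 0 < ‖x - pp‖ := by
  have h : x - pp ≠ 0 := by
    intro h
    have h1 : (x - pp) 0 = 0 := by rw [h]; rfl
    have h2 : (x - pp) 0 = x 0 - 10 := by
      simp [pp]
    rw [h2] at h1
    exact hx (by linarith)
  exact norm_pos_iff.2 h

theorem wl_open : IsOpen Om := by
  have h : Continuous (fun x : E => x 0) := (EuclideanSpace.proj (0 : Fin 4)).continuous
  exact (isOpen_lt continuous_const h).inter (isOpen_lt h continuous_const)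

/-- smooth in `Om` with bilaplacian `G` -/
def wl_P (f G : E → ℝ) : Prop := ∀ x ∈ Om, (∀ n : ℕ, ContDiffAt ℝ n f x) ∧ Δ (Δ f) x = G x

theorem wl_add {f G f' G' : E → ℝ} (h : wl_P f G) (h' : wl_P f' G') : wl_P (f + f') (G + G') := by
  intro x hx
  refine ⟨fun n => ((h x hx).1 n).add ((h' x hx).1 n), ?_⟩
  have h1 : Δ (f + f') =ᶠ[𝓝 x] Δ f + Δ f' :=
    Filter.Eventually.mono (wl_open.mem_nhds hx) fun z hz =>
      ContDiffAt.laplacian_add (by exact_mod_cast (h z hz).1 2) (by exact_mod_cast (h' z hz).1 2)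
  rw [(laplacian_congr_nhds h1).eq_of_nhds,
    ContDiffAt.laplacian_add (by exact_mod_cast wl_smooth f x (h x hx).1 2)
      (by exact_mod_cast wl_smooth f' x (h' x hx).1 2), (h x hx).2, (h' x hx).2]
  rfl

theorem wl_smul {f G : E → ℝ} (h : wl_P f G) (c : ℝ) : wl_P (c • f) (c • G) := by
  intro x hx
  refine ⟨fun n => contDiffAt_const.smul ((h x hx).1 n), ?_⟩
  have h1 : Δ (c • f) =ᶠ[𝓝 x] c • Δ f :=
    Filter.Eventually.mono (wl_open.mem_nhds hx) fun z hz =>
      laplacian_smul _ (by exact_mod_cast (h z hz).1 2)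
  rw [(laplacian_congr_nhds h1).eq_of_nhds,
    laplacian_smul _ (by exact_mod_cast wl_smooth f x (h x hx).1 2), (h x hx).2]
  rfl

theorem wl_zero : wl_P 0 0 := by
  intro x _
  refine ⟨fun n => contDiffAt_const, ?_⟩
  have h1 : Δ (0 : E → ℝ) = 0 := by
    have := laplacian_const (E := E) (c := (0 : ℝ))
    exact this
  rw [h1, h1]

theorem wl_sum {ι : Type} (s : Finset ι) (f G : ι → E → ℝ) (h : ∀ i ∈ s, wl_P (f i) (G i)) :
    wl_P (∑ i ∈ s, f i) (∑ i ∈ s, G i) := by
  classical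
  induction s using Finset.induction_on with
  | empty => simpa using wl_zero
  | insert a s ha ih =>
    rw [Finset.sum_insert ha, Finset.sum_insert ha]
    exact wl_add (h a (Finset.mem_insert_self a s)) (ih fun i hi => h i (Finset.mem_insert_of_mem hi))

theorem wl_lg (h1 : S_SM) (h2 : S_LAP) (e : ℝ) (a : E) (h : ∀ x ∈ Om, 0 < e ^ 2 + ‖x - a‖ ^ 2) :
    wl_P (fun z => lg e (z - a)) (fun z => -bd e (z - a)) := by
  intro x hx
  refine ⟨fun n => ?_, ?_⟩
  · exact ContDiffAt.comp (g := lg e) (f := fun z : E => z - a) x (h1 e (x - a) (h x hx) n)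
      (contDiffAt_id.sub contDiffAt_const)
  · rw [wl_trans, wl_trans]
    exact h2 e (x - a) (h x hx)

theorem wl_HH {A : Finset E} (hA : GoodA A) {a : E} (ha : a ∈ A) : 0 < HH A a := by
  have h1 : 0 < ‖a - pp‖ := wl_pp (by rw [hA a ha]; norm_num)
  refine Finset.prod_pos fun b hb => ?_
  have h3 : a - b ≠ 0 := sub_ne_zero.2 (Finset.ne_of_mem_erase hb).symm
  exact pow_pos (div_pos h1 (norm_pos_iff.2 h3)) 2

theorem wl_ep {A : Finset E} (hA : GoodA A) (β : ℝ) {a : E} (ha : a ∈ A) : 0 < ep A β a :=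
  div_pos (mul_pos (Real.exp_pos _) (wl_HH hA ha)) two_pos

theorem wl (h1 : S_SM) (h2 : S_LAP) (h3 : S_PHI) : S_WL := by
  intro A hA β
  have hphi : wl_P phi 0 := fun x _ => ⟨fun n => (h3.1 n).contDiffAt, h3.2 x⟩
  have hp : ∀ x ∈ Om, 0 < (0 : ℝ) ^ 2 + ‖x - pp‖ ^ 2 := by
    intro x hx
    have h4 : 0 < ‖x - pp‖ := wl_pp (by
      intro h
      have := hx.2
      rw [h] at this
      norm_num at this)
    positivity
  have hu := wl_lg h1 h2 0 pp hp
  have hv : ∀ a ∈ A, wl_P (fun z => lg (ep A β a) (z - a)) (fun z => -bd (ep A β a) (z - a)) := by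
    intro a ha
    refine wl_lg h1 h2 _ a fun x _ => ?_
    have h4 := wl_ep hA β ha
    positivity
  have hW := wl_add (wl_add (wl_smul hphi β) (wl_smul hu (-1)))
    (wl_sum A (fun a => (fun z => lg 0 (z - pp)) + (-1 : ℝ) • (fun z => lg (ep A β a) (z - a)))
      (fun a => (fun z => -bd 0 (z - pp)) + (-1 : ℝ) • (fun z => -bd (ep A β a) (z - a)))
      fun a ha => wl_add hu (wl_smul (hv a ha) (-1)))
  have e1 : W A β = β • phi + (-1 : ℝ) • (fun z => lg 0 (z - pp)) +
      ∑ a ∈ A, ((fun z => lg 0 (z - pp)) + (-1 : ℝ) • (fun z => lg (ep A β a) (z - a))) := by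
    funext x
    simp only [W, Pi.add_apply, Pi.smul_apply, Finset.sum_apply, smul_eq_mul]
    have : ∀ a ∈ A, lg 0 (x - pp) - lg (ep A β a) (x - a) =
        lg 0 (x - pp) + -1 * lg (ep A β a) (x - a) := fun a _ => by ring
    rw [Finset.sum_congr rfl this]
    ring
  intro x hx
  rw [e1]
  refine ⟨(hW x hx).1, (hW x hx).2.trans ?_⟩
  simp [B, bd]

end Pool.Agent.Q82.QC
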