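import Mathlib
import Pool.Agent.Q82.QC.Stm

/-!
# Project QC, job WP
-/

set_option autoImplicit false

open MeasureTheory Filter Topology Real InnerProductSpace Laplacian

namespace Pool.Agent.Q82.QC

theorem wp_pp {x : E} (hx : x 0 ≠ 10) : 0 < ‖x - pp‖ := by
  have h : x - pp ≠ 0 := by
    intro h
    have h1 : (x - pp) 0 = 0 := by rw [h]; rfl
    have h2 : (x - pp) 0 = x 0 - 10 := by
      simp [pp]
    rw [h2] at h1
    exact hx (by linarith)
  exact norm_pos_iff.2 h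

theorem wp_HH {A : Finset E} (hA : GoodA A) {a : E} (ha : a ∈ A) : 0 < HH A a := by
  have h1 : 0 < ‖a - pp‖ := wp_pp (by rw [hA a ha]; norm_num)
  refine Finset.prod_pos fun b hb => ?_
  have h3 : a - b ≠ 0 := sub_ne_zero.2 (Finset.ne_of_mem_erase hb).symm
  exact pow_pos (div_pos h1 (norm_pos_iff.2 h3)) 2

theorem wp_ep {A : Finset E} (hA : GoodA A) (β : ℝ) {a : E} (ha : a ∈ A) : 0 < ep A β a :=
  div_pos (mul_pos (Real.exp_pos _) (wp_HH hA ha)) two_pos

theorem wp_exp4 (t : ℝ) : Real.exp (4 * t) = Real.exp t ^ 4 := by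
  have h := Real.exp_nat_mul t 4
  push_cast at h
  exact h

theorem wp : S_WP := by
  intro A hA β x hx
  have hx0 : 0 < ‖x - pp‖ := wp_pp (by
    intro h
    have := hx.2
    rw [h] at this
    norm_num at this)
  have h0 : Real.exp (lg 0 (x - pp)) = ‖x - pp‖ ^ 2 := by
    unfold lg
    rw [Real.exp_log] <;> simp only [ne_eq, OfNat.ofNat_ne_zero, not_false_eq_true, zero_pow, zero_add]
    exact pow_pos hx0 2
  have ha : ∀ a ∈ A, Real.exp (4 * (lg 0 (x - pp) - lg (ep A β a) (x - a))) =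
      (‖x - pp‖ ^ 2 / (ep A β a ^ 2 + ‖x - a‖ ^ 2)) ^ 4 := by
    intro a ha
    have h1 : 0 < ep A β a ^ 2 + ‖x - a‖ ^ 2 :=
      add_pos_of_pos_of_nonneg (pow_pos (wp_ep hA β ha) 2) (sq_nonneg _)
    have h2 : Real.exp (lg (ep A β a) (x - a)) = ep A β a ^ 2 + ‖x - a‖ ^ 2 := Real.exp_log h1
    rw [wp_exp4, Real.exp_sub, h0, h2]
  have e1 : 4 * W A β x = 4 * β * phi x - 4 * lg 0 (x - pp) +
      ∑ a ∈ A, 4 * (lg 0 (x - pp) - lg (ep A β a) (x - a)) := by
    rw [← Finset.mul_sum]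
    unfold W
    ring
  rw [e1, Real.exp_add, Real.exp_sub, Real.exp_sum, Finset.prod_congr rfl ha, wp_exp4 (lg 0 (x - pp)), h0]
  congr 2
  ring

end Pool.Agent.Q82.QC
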