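import Mathlib

/-!
# Group topologies given by a directed family of subgroups
-/

open Topology Filter Set Pointwise

namespace Q16

/-- A directed family of subgroups which is stable under conjugation in the topological sense. -/
structure SubBasis (G : Type*) [Group G] (ι : Type*) where
  V : ι → Subgroup G
  i₀ : ι
  dir : ∀ i j, ∃ k, V k ≤ V i ∧ V k ≤ V j
  conj : ∀ i g, ∃ j, ∀ x ∈ V j, g * x * g⁻¹ ∈ V i

namespace SubBasis

variable {G : Type*} [Group G] {ι : Type*} (S : SubBasis G ι)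

/-- The group filter basis. -/
@[instance_reducible]
def basis : GroupFilterBasis G where
  sets := Set.range (fun i => (S.V i : Set G))
  nonempty := ⟨_, S.i₀, rfl⟩
  inter_sets := by
    rintro _ _ ⟨i, rfl⟩ ⟨j, rfl⟩
    obtain ⟨k, h1, h2⟩ := S.dir i j
    exact ⟨_, ⟨k, rfl⟩, subset_inter h1 h2⟩
  one' := by
    rintro _ ⟨i, rfl⟩
    exact (S.V i).one_mem
  mul' := by
    rintro _ ⟨i, rfl⟩
    refine ⟨_, ⟨i, rfl⟩, ?_⟩
    rintro _ ⟨a, ha, b, hb, rfl⟩
    exact (S.V i).mul_mem ha hb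
  inv' := by
    rintro _ ⟨i, rfl⟩
    exact ⟨_, ⟨i, rfl⟩, fun x hx => (S.V i).inv_mem hx⟩
  conj' := by
    rintro g _ ⟨i, rfl⟩
    obtain ⟨j, hj⟩ := S.conj i g
    exact ⟨_, ⟨j, rfl⟩, fun x hx => hj x hx⟩

/-- The topology. -/
@[instance_reducible]
def topology : TopologicalSpace G := S.basis.topology

theorem isTopologicalGroup : @IsTopologicalGroup G S.topology _ :=
  GroupFilterBasis.isTopologicalGroup S.basis

theorem mem_nhds_one {U : Set G} : U ∈ @nhds G S.topology 1 ↔ ∃ i, (S.V i : Set G) ⊆ U := by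
  rw [(S.basis.nhds_one_hasBasis).mem_iff]
  constructor
  · rintro ⟨_, ⟨i, rfl⟩, h⟩
    exact ⟨i, h⟩
  · rintro ⟨i, h⟩
    exact ⟨_, ⟨i, rfl⟩, h⟩

theorem t2Space (h : ∀ x, (∀ i, x ∈ S.V i) → x = 1) : @T2Space G S.topology := by
  let _ := S.topology
  rw [S.basis.t2Space_iff_sInter_subset rfl]
  intro x hx
  apply h
  intro i
  exact hx _ ⟨i, rfl⟩

variable {H : Type*} [Group H] {κ : Type*} (T : SubBasis H κ)

theorem continuous_hom (f : G →* H) (h : ∀ j, ∃ i, ∀ x ∈ S.V i, f x ∈ T.V j) :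
    @Continuous G H S.topology T.topology f := by
  let _ := S.topology
  let _ := T.topology
  have := S.isTopologicalGroup
  have := T.isTopologicalGroup
  apply continuous_of_continuousAt_one f
  intro U hU
  rw [map_one, T.mem_nhds_one] at hU
  obtain ⟨j, hj⟩ := hU
  obtain ⟨i, hi⟩ := h j
  change f ⁻¹' U ∈ 𝓝 1
  rw [S.mem_nhds_one]
  exact ⟨i, fun x hx => hj (hi x hx)⟩

theorem isOpenMap_hom (f : G →* H) (h : ∀ i, ∃ j, ∀ y ∈ T.V j, ∃ x ∈ S.V i, f x = y) :
    @IsOpenMap G H S.topology T.topology f := by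
  let _ := S.topology
  let _ := T.topology
  have := S.isTopologicalGroup
  have := T.isTopologicalGroup
  rw [isOpenMap_iff_nhds_le]
  intro x
  have h1 : 𝓝 (1 : H) ≤ (𝓝 (1 : G)).map f := by
    intro U hU
    rw [mem_map, S.mem_nhds_one] at hU
    obtain ⟨i, hi⟩ := hU
    obtain ⟨j, hj⟩ := h i
    rw [T.mem_nhds_one]
    refine ⟨j, fun y hy => ?_⟩
    obtain ⟨x, hx, rfl⟩ := hj y hy
    exact hi hx
  rw [← map_mul_left_nhds_one x, ← map_mul_left_nhds_one (f x), Filter.map_map]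
  have h2 : (f ∘ fun y => x * y) = (fun y => f x * y) ∘ f := by
    funext y; simp
  rw [h2, ← Filter.map_map]
  exact Filter.map_mono h1

end SubBasis

end Q16
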