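import Pool.Agent.Q16.SubTop

/-!
# Open and closed sets in group topologies given by subgroups
-/

open Topology Filter Set Pointwise

namespace Q16

namespace SubBasis

variable {G : Type*} [Group G] {ι : Type*} (S : SubBasis G ι)

theorem mem_nhds {g : G} {U : Set G} :
    U ∈ @nhds G S.topology g ↔ ∃ i, ∀ v ∈ S.V i, g * v ∈ U := by
  let _ := S.topology
  have := S.isTopologicalGroup
  rw [← map_mul_left_nhds_one g, mem_map, S.mem_nhds_one]
  rfl

theorem isOpen_iff {U : Set G} :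
    @IsOpen G S.topology U ↔ ∀ g ∈ U, ∃ i, ∀ v ∈ S.V i, g * v ∈ U := by
  let _ := S.topology
  rw [isOpen_iff_mem_nhds]
  exact forall₂_congr fun g _ => S.mem_nhds

theorem isClosed_iff {U : Set G} :
    @IsClosed G S.topology U ↔ ∀ g, g ∉ U → ∃ i, ∀ v ∈ S.V i, g * v ∉ U := by
  let _ := S.topology
  rw [← isOpen_compl_iff, S.isOpen_iff]
  rfl

theorem mem_of_isClosed {U : Set G} (hU : @IsClosed G S.topology U) {g : G}
    (h : ∀ i, ∃ v ∈ S.V i, g * v ∈ U) : g ∈ U := by
  by_contra hg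
  obtain ⟨i, hi⟩ := S.isClosed_iff.1 hU g hg
  obtain ⟨v, hv, hgv⟩ := h i
  exact hi v hv hgv

theorem isOpen_V (i : ι) : @IsOpen G S.topology (S.V i : Set G) := by
  rw [S.isOpen_iff]
  intro g hg
  exact ⟨i, fun v hv => (S.V i).mul_mem hg hv⟩

end SubBasis

end Q16
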